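import Pool.Agent.H51.PG.Large

/-! The small factor is even and the large one odd; the combined statement. -/

namespace Pool.Agent.H51.PG

open Finset

variable {Γ : Type*} [AddCommGroup Γ] [Fintype Γ] [DecidableEq Γ]

theorem exists_half (hodd : Odd (Fintype.card Γ)) (g : Γ) : ∃ h : Γ, h + h = g := by
  obtain ⟨m, hm⟩ := hodd
  refine ⟨(m + 1) • g, ?_⟩
  have h1 : (2 * m + 1) • g = 0 := by rw [← hm, card_nsmul_eq_zero]
  rw [← add_nsmul]
  have : m + 1 + (m + 1) = (2 * m + 1) + 1 := by ring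
  rw [this, succ_nsmul, h1, zero_add]

theorem dbl_inj_odd (hodd : Odd (Fintype.card Γ)) {g h : Γ} (he : g + g = h + h) : g = h := by
  obtain ⟨m, hm⟩ := hodd
  have h1 : (2 * m + 1) • (g - h) = 0 := by rw [← hm, card_nsmul_eq_zero]
  have h2 : 2 • (g - h) = 0 := by
    rw [two_nsmul]
    have : g - h + (g - h) = (g + g) - (h + h) := by abel
    rw [this, he, sub_self]
  rw [add_nsmul, mul_nsmul, h2, nsmul_zero, zero_add, one_nsmul] at h1
  exact sub_eq_zero.mp h1

/-- all values of a small homomorphism are even -/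
theorem even_step {A B : Finset Γ} (D : OddData B A) (h3 : 3 ≤ A.card)
    (hodd : Odd (Fintype.card Γ)) (hcov : ∀ x, x ≠ 0 → x ∈ diffs A ∨ x ∈ diffs B)
    (f : Γ →+ ZMod (Fintype.card Γ))
    (hfA : ∀ a ∈ A, ∃ z : ℤ, 6 * |z| < Fintype.card Γ ∧ f a = z) :
    ∀ a ∈ A, ∃ z : ℤ, 6 * |z| < Fintype.card Γ ∧ f a = z ∧ Even z := by
  choose! Z hZ hfZ using hfA
  have hneg : ∀ a ∈ A, Z (-a) = -Z a := by
    intro a ha
    have h1 := hZ a ha
    have h2 := hZ (-a) ((D.symY a).mp ha)
    apply lift_unique (n := Fintype.card Γ)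
    · rw [← hfZ _ ((D.symY a).mp ha), map_neg, hfZ a ha]; push_cast; rfl
    · rw [sub_neg_eq_add]
      have := abs_add_le (Z (-a)) (Z a)
      omega
  -- half differences
  have key : ∀ a ∈ A, ∀ a' ∈ A, a ≠ a' → a' ≠ -a →
      ∃ a3 ∈ A, ∃ a4 ∈ A, Z a - Z a' = 2 * (Z a3 - Z a4) := by
    intro a ha a' ha' hne hne'
    obtain ⟨h, hh⟩ := exists_half hodd (a - a')
    have h0 : h ≠ 0 := by
      rintro rfl
      rw [add_zero] at hh
      exact hne (sub_eq_zero.mp hh.symm)
    rcases hcov h h0 with h1 | h1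
    · rw [mem_diffs] at h1
      obtain ⟨_, a3, ha3, a4, ha4, he⟩ := h1
      refine ⟨a3, ha3, a4, ha4, ?_⟩
      apply lift_unique (n := Fintype.card Γ)
      · push_cast
        rw [← hfZ a ha, ← hfZ a' ha', ← hfZ a3 ha3, ← hfZ a4 ha4, ← map_sub, ← map_sub f a3 a4, he,
          ← hh, map_add]
        ring
      · have b0 := hZ a ha
        have b1 := hZ a' ha'
        have b3 := hZ a3 ha3
        have b4 := hZ a4 ha4
        rcases abs_cases (Z a - Z a' - 2 * (Z a3 - Z a4)) with ⟨hh, _⟩ | ⟨hh, _⟩ <;>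
        rcases abs_cases (Z a) with ⟨g0, _⟩ | ⟨g0, _⟩ <;>
        rcases abs_cases (Z a') with ⟨g1, _⟩ | ⟨g1, _⟩ <;>
        rcases abs_cases (Z a3) with ⟨g3, _⟩ | ⟨g3, _⟩ <;>
        rcases abs_cases (Z a4) with ⟨g4, _⟩ | ⟨g4, _⟩ <;>
        rw [hh] <;> omega
    · exfalso
      rw [mem_diffs] at h1
      obtain ⟨_, x, hx, x', hx', he⟩ := h1
      have hxx : x ≠ x' := by
        rintro rfl
        rw [sub_self] at he
        exact h0 he.symm
      apply hne'
      have h2 := D.coll hx hx' ha' ha hxx (by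
        have : x + x + a' = (x - x') + (x - x') + (x' + x') + a' := by abel
        rw [this, he, hh]; abel)
      rw [h2, neg_neg]
  have hother : ∀ a ∈ A, ∃ a' ∈ A, a ≠ a' ∧ a' ≠ -a := by
    intro a ha
    by_contra hn
    push Not at hn
    have h1 : A ⊆ {a, -a} := by
      intro b hb
      rw [mem_insert, mem_singleton]
      by_cases h : a = b
      · left; exact h.symm
      · right; exact hn b hb h
    have h2 := card_le_card h1
    have h4 := card_le_two (a := a) (b := -a)
    omega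
  have hpar : ∀ a ∈ A, ∀ a' ∈ A, (2 : ℤ) ∣ Z a - Z a' := by
    intro a ha a' ha'
    by_cases h1 : a = a'
    · rw [h1, sub_self]; exact dvd_zero _
    · by_cases h2 : a' = -a
      · rw [h2, hneg a ha]
        exact ⟨Z a, by ring⟩
      · obtain ⟨a3, _, a4, _, he⟩ := key a ha a' ha' h1 h2
        rw [he]; exact Dvd.intro _ rfl
  intro a ha
  refine ⟨Z a, hZ a ha, hfZ a ha, ?_⟩
  obtain ⟨a', ha', hn1, hn2⟩ := hother a ha
  obtain ⟨a3, ha3, a4, ha4, he⟩ := key a ha a' ha' hn1 hn2
  obtain ⟨a5, ha5, a6, ha6, he'⟩ := key a ha (-a') ((D.symY a').mp ha') (by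
    intro h; apply hn2; rw [h, neg_neg]) (by
    intro h; apply hn1; exact (neg_injective h).symm)
  rw [hneg a' ha'] at he'
  obtain ⟨u, hu⟩ := hpar a3 ha3 a4 ha4
  obtain ⟨v, hv⟩ := hpar a5 ha5 a6 ha6
  rw [hu] at he
  rw [hv] at he'
  exact ⟨u + v, by omega⟩

/-- second case: the small factor is even, the other one odd -/
theorem large_even {A B : Finset Γ} (D : OddData B A) (h3 : 3 ≤ A.card)
    (hodd : Odd (Fintype.card Γ)) (hn : 6 ^ (A.card / 2) < Fintype.card Γ)
    (hcov : ∀ x, x ≠ 0 → x ∈ diffs A ∨ x ∈ diffs B) : False := by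
  have main : ∀ k : ℕ, ∃ f : Γ →+ ZMod (Fintype.card Γ), f ≠ 0 ∧
      ∀ a ∈ A, ∃ z : ℤ, 6 * (2 ^ k * |z|) < Fintype.card Γ ∧ f a = z := by
    intro k
    induction k with
    | zero =>
      obtain ⟨f, hf, hfA⟩ := rectA D.symY (by
        intro a _ h
        apply dbl_inj_odd hodd
        nth_rw 1 [h]; abel) hn
      refine ⟨f, hf, fun a ha => ?_⟩
      obtain ⟨z, hz, hz'⟩ := hfA a ha
      exact ⟨z, by rw [pow_zero, one_mul]; exact hz, hz'⟩
    | succ k ih =>
      obtain ⟨f, hf, hfA⟩ := ih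
      have hweak : ∀ a ∈ A, ∃ z : ℤ, 6 * |z| < Fintype.card Γ ∧ f a = z := by
        intro a ha
        obtain ⟨z, hz, hz'⟩ := hfA a ha
        refine ⟨z, lt_of_le_of_lt ?_ hz, hz'⟩
        have h1 : (1 : ℤ) ≤ 2 ^ k := one_le_pow₀ (by norm_num)
        have h2 := abs_nonneg z
        nlinarith
      have heven := even_step D h3 hodd hcov f hweak
      obtain ⟨m, hm⟩ := hodd
      refine ⟨(m + 1) • f, ?_, fun a ha => ?_⟩
      · intro h
        apply hf
        ext g
        have h1 := DFunLike.congr_fun h g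
        rw [AddMonoidHom.nsmul_apply, AddMonoidHom.zero_apply] at h1
        have h2 : (2 * m + 1) • f g = 0 := by
          rw [← map_nsmul, ← hm, card_nsmul_eq_zero, map_zero]
        rw [AddMonoidHom.zero_apply]
        have h3 : 2 • ((m + 1) • f g) = (2 * m + 1) • f g + f g := by
          rw [← mul_nsmul, ← succ_nsmul]
          congr 1
          ring
        rw [h1, h2, nsmul_zero, zero_add] at h3
        exact h3.symm
      · obtain ⟨z, hz, hz'⟩ := hfA a ha
        obtain ⟨z2, hz2, hz2', ⟨y, hy⟩⟩ := heven a ha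
        have hw : (6 : ℤ) * |z| < Fintype.card Γ := by
          refine lt_of_le_of_lt ?_ hz
          have h1 : (1 : ℤ) ≤ 2 ^ k := one_le_pow₀ (by norm_num)
          have h2 := abs_nonneg z
          nlinarith
        have he : z = z2 := by
          apply lift_unique (n := Fintype.card Γ)
          · rw [← hz', ← hz2']
          · have := abs_sub z z2
            have := abs_nonneg z
            have := abs_nonneg z2
            omega
        refine ⟨y, ?_, ?_⟩
        · have h1 : |z| = 2 * |y| := by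
            rw [he, hy, ← two_mul, abs_mul]; norm_num
          rw [h1] at hz
          rw [pow_succ]
          calc 6 * (2 ^ k * 2 * |y|) = 6 * (2 ^ k * (2 * |y|)) := by ring
            _ < _ := hz
        · rw [AddMonoidHom.nsmul_apply, hz2', hy]
          have h2 : (2 * m + 1) • ((y : ℤ) : ZMod (Fintype.card Γ)) = 0 := by
            rw [nsmul_eq_mul, ← hm, ZMod.natCast_self, zero_mul]
          rw [Int.cast_add]
          have h3 : (m + 1) • (((y : ℤ) : ZMod (Fintype.card Γ)) + ((y : ℤ) : ZMod (Fintype.card Γ)))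
              = (2 * m + 1) • ((y : ℤ) : ZMod (Fintype.card Γ)) + ((y : ℤ) : ZMod (Fintype.card Γ)) := by
            rw [← two_nsmul, ← mul_nsmul', ← succ_nsmul]
            congr 1
            ring
          rw [h3, h2, zero_add]
  obtain ⟨f, hf, hfA⟩ := main (Fintype.card Γ)
  apply hf
  apply gen_zero D.nf.comm (by omega) f
  intro a ha
  obtain ⟨z, hz, hz'⟩ := hfA a ha
  have h0 : z = 0 := by
    by_contra hne
    have h1 : 1 ≤ |z| := Int.one_le_abs hne
    have h2 : ((Fintype.card Γ : ℕ) : ℤ) < 2 ^ (Fintype.card Γ) := by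
      exact_mod_cast Nat.lt_two_pow_self
    have h4 : (0 : ℤ) < 2 ^ (Fintype.card Γ) := by positivity
    nlinarith
  rw [hz', h0]; simp

theorem oddData_of_odd {X Y : Finset Γ} (H : NF X Y 0) (ho : Odd X.card) (hY : 2 ≤ Y.card) :
    ∃ X' Y' : Finset Γ, X'.card = X.card ∧ Y'.card = Y.card ∧ diffs X' = diffs X ∧
      diffs Y' = diffs Y ∧ OddData X' Y' := by
  obtain ⟨c, hc⟩ := H.symm_left (card_pos.mp (by omega))
  obtain ⟨w, hw, hwc⟩ := center_of_odd hc ho
  obtain ⟨X', Y', h1, h2, h3, h4, h5, h6, h7, h8⟩ := normalize hc hwc H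
    (card_pos.mp ho.pos)
  refine ⟨X', Y', h1, h2, h3, h4, ⟨h5, h6, h7, ?_, ?_, ?_⟩⟩
  · rw [h1]; exact ho
  · rw [h2]; exact hY
  · rw [h8, zero_add]; exact hw

theorem large_aux {A B : Finset Γ} (H : NF A B 0) (hA : 5 ≤ A.card) (hB : 5 ≤ B.card)
    (hev : ¬(Even A.card ∧ Even B.card)) (hn : 6 ^ (A.card / 2) < Fintype.card Γ)
    (hcov : ∀ x, x ≠ 0 → x ∈ diffs A ∨ x ∈ diffs B) : False := by
  rcases Nat.even_or_odd A.card with he | ho
  · have hBo : Odd B.card := by
      rw [← Nat.not_even_iff_odd]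
      exact fun h => hev ⟨he, h⟩
    obtain ⟨B', A', h1, h2, h3, h4, D⟩ := oddData_of_odd H.comm hBo (by omega)
    apply large_even D (by omega) ?_ (by rw [h2]; exact hn) (by rw [h3, h4]; exact hcov)
    rw [H.card]
    exact Even.add_one (he.mul_right _)
  · obtain ⟨A', B', h1, h2, h3, h4, D⟩ := oddData_of_odd H ho (by omega)
    exact large_odd D (by omega) (by rw [h1]; exact hn) (by rw [h3, h4]; exact hcov)

/-- one factor is logarithmic in the order of the group -/
theorem large {A B : Finset Γ} (H : NF A B 0) (hA : 5 ≤ A.card) (hB : 5 ≤ B.card)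
    (hev : ¬(Even A.card ∧ Even B.card)) (hn : 6 ^ (min A.card B.card / 2) < A.card * B.card + 1)
    (hcov : ∀ x, x ≠ 0 → x ∈ diffs A ∨ x ∈ diffs B) : False := by
  rw [← H.card] at hn
  rcases le_total A.card B.card with h | h
  · rw [min_eq_left h] at hn
    exact large_aux H hA hB hev hn hcov
  · rw [min_eq_right h] at hn
    exact large_aux H.comm hB hA (fun h => hev h.symm) hn (fun x hx => (hcov x hx).symm)

end Pool.Agent.H51.PG
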