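import Pool.Agent.H51.PG.FourMain
import Pool.Agent.H51.PG.Large2

/-! Classification of the partitionable Cayley graphs of abelian groups without weak pairs
in a region of parameters. -/

namespace Pool.Agent.H51.PG

open Finset

/-- an odd hole: a graph isomorphic to a cycle of odd length at least 5 -/
def IsOddHole {V : Type*} (G : SimpleGraph V) : Prop :=
  ∃ k, 2 ≤ k ∧ Nonempty (G ≃g SimpleGraph.cycleGraph (2 * k + 1))

/-- the graph `G_17` on `ZMod 17` with distances `1, 3, 4, 5` -/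
def G17 : SimpleGraph (ZMod 17) where
  Adj i j := i - j = 1 ∨ i - j = -1 ∨ i - j = 3 ∨ i - j = -3 ∨ i - j = 4 ∨ i - j = -4 ∨
    i - j = 5 ∨ i - j = -5
  symm := ⟨by decide⟩
  loopless := ⟨by decide⟩

theorem G17_adj (i j : ZMod 17) : G17.Adj i j ↔ i - j ∈ D17 := by
  revert i j
  unfold G17 D17
  decide

/-- multiplication by two -/
def mul2 : ZMod 17 ≃ ZMod 17 where
  toFun x := 2 * x
  invFun x := 9 * x
  left_inv := by unfold Function.LeftInverse; decide
  right_inv := by unfold Function.RightInverse Function.LeftInverse; decide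

theorem G17_compl : Nonempty (G17ᶜ ≃g G17) := by
  refine ⟨⟨mul2, ?_⟩⟩
  intro u v
  rw [G17_adj, SimpleGraph.compl_adj, G17_adj]
  revert u v
  unfold mul2 D17
  decide

variable {Γ : Type*} [AddCommGroup Γ] [Fintype Γ] [DecidableEq Γ]

theorem inv_compl {G : SimpleGraph Γ} (hinv : ∀ g x y, G.Adj x y → G.Adj (g + x) (g + y)) :
    ∀ g x y, Gᶜ.Adj x y → Gᶜ.Adj (g + x) (g + y) := by
  intro g x y h
  rw [SimpleGraph.compl_adj] at h ⊢
  refine ⟨fun he => h.1 (add_left_cancel he), fun ha => h.2 ?_⟩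
  have := hinv (-g) _ _ ha
  rwa [neg_add_cancel_left, neg_add_cancel_left] at this

theorem Partitionable.compl {V : Type*} [Fintype V] {G : SimpleGraph V} {p q : ℕ}
    (h : Partitionable G p q) : Partitionable Gᶜ q p := by
  obtain ⟨hp, hq, hc, hv⟩ := h
  refine ⟨hq, hp, by rw [hc, mul_comm], fun v => ?_⟩
  obtain ⟨⟨C, hC, hC'⟩, ⟨S, hS, hS'⟩⟩ := hv v
  refine ⟨⟨S, fun j => ⟨?_, (hS j).2⟩, hS'⟩, ⟨C, fun i => ⟨?_, (hC i).2⟩, hC'⟩⟩
  · rw [SimpleGraph.isNClique_compl]; exact (hS j).1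
  · rw [SimpleGraph.isNIndepSet_compl]; exact (hC i).1

theorem NoWeakPair.compl {V : Type*} [Fintype V] {G : SimpleGraph V}
    (h : NoWeakPair G) : NoWeakPair Gᶜ := by
  intro u v huv
  rcases h u v huv with ⟨K, hK, hu, hv⟩ | ⟨S, hS, hu, hv⟩
  · right
    exact ⟨K, by rw [SimpleGraph.isMaximumIndepSet_compl]; exact hK, hu, hv⟩
  · left
    exact ⟨S, by rw [SimpleGraph.isMaximumClique_compl]; exact hS, hu, hv⟩

theorem iso_of_compl {G : SimpleGraph Γ} (h : Nonempty (Gᶜ ≃g G17)) : Nonempty (G ≃g G17) := by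
  obtain ⟨f⟩ := h
  obtain ⟨g⟩ := G17_compl
  have f' : G ≃g G17ᶜ := by
    refine ⟨f.toEquiv, ?_⟩
    intro a b
    have h1 := f.map_rel_iff (a := a) (b := b)
    rw [SimpleGraph.compl_adj] at h1
    rw [SimpleGraph.compl_adj]
    change (f a ≠ f b ∧ ¬ G17.Adj (f a) (f b)) ↔ G.Adj a b
    rw [h1]
    constructor
    · rintro ⟨h2, h3⟩
      by_contra h4
      exact h3 ⟨fun h5 => h2 (by rw [h5]), h4⟩
    · intro h2
      refine ⟨fun h3 => ?_, fun h3 => h3.2 h2⟩
      exact h2.ne (f.injective h3)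
  exact ⟨f'.trans g⟩

theorem small {G : SimpleGraph Γ} (hinv : ∀ g x y, G.Adj x y → G.Adj (g + x) (g + y))
    {p q : ℕ} (hp : Partitionable G p q) (hw : NoWeakPair G) (hq : q ≤ 4) :
    IsOddHole G ∨ IsOddHole Gᶜ ∨ Nonempty (G ≃g G17) := by
  obtain ⟨A, B, hA, hB, H, hadj, hcov⟩ := setup hinv hp hw
  obtain ⟨A', B', hA', hB', H', hadj', hcov'⟩ := setup (inv_compl hinv) hp.compl hw.compl
  obtain ⟨hp2, hq2, -, -⟩ := hp
  by_cases hp3 : p = 2
  · right; left
    exact hole_of_two (by omega) (by omega) H' hadj'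
  have hq' : q = 2 ∨ q = 3 ∨ q = 4 := by omega
  rcases hq' with h | h | h
  · left
    exact hole_of_two (by omega) (by omega) H hadj
  · have := three_small (by omega) (by omega) H hcov
    omega
  · by_cases hp4 : p = 3
    · have := three_small (by omega) (by omega) H' hcov'
      omega
    · right; right
      obtain ⟨φ, hφ⟩ := four_main (by omega) H (by omega) hcov
      refine ⟨⟨φ.symm.toEquiv, ?_⟩⟩
      intro a b
      rw [G17_adj, hadj, hφ, map_sub]
      rfl

theorem arith9 {a b x y : ℕ} (h1 : 2 * b + 1 ≤ 3 * a) (h2 : 2 * a + 1 ≤ 3 * b)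
    (hx : 8 * x + 7 ≤ 27 * a ^ 2 + 12 * a) (hy : 2 * y ≤ 9 * b ^ 2) (h : 9 * a * b ≤ x + y) :
    False := by
  obtain ⟨u, hu⟩ : ∃ u, 3 * a = 2 * b + 1 + u := ⟨3 * a - (2 * b + 1), by omega⟩
  obtain ⟨v, hv⟩ : ∃ v, 3 * b = 2 * a + 1 + v := ⟨3 * b - (2 * a + 1), by omega⟩
  zify at *
  have hp : 0 ≤ (3 * (a : ℤ) - 2 * b - 1) * (3 * b - 2 * a - 1) :=
    mul_nonneg (by linarith) (by linarith)
  have hq : 0 ≤ 3 * (a : ℤ) * (3 * a - 2 * b - 1) := mul_nonneg (by positivity) (by linarith)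
  nlinarith

theorem arith3 {p q x y : ℕ} (hp : 5 ≤ p) (hq : 5 ≤ q) (h3 : ¬ 3 ∣ q) (h1 : 2 * p < 3 * q)
    (h2 : 2 * q < 3 * p) (hx : 3 * x ≤ q ^ 2 + 2 * q) (hy : 2 * y ≤ p ^ 2)
    (hy3 : ¬ 3 ∣ p → 3 * y ≤ p ^ 2 + 2 * p) (h : p * q ≤ x + y) : False := by
  by_cases hq12 : q ≤ 12
  · have hp17 : p ≤ 17 := by omega
    interval_cases q <;> interval_cases p <;> omega
  · push Not at hq12
    zify at *
    have hp : 0 ≤ (3 * (q : ℤ) - 2 * p - 1) * (3 * p - 2 * q - 1) :=
      mul_nonneg (by linarith) (by linarith)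
    have hq : 0 ≤ (q : ℤ) * (3 * q - 2 * p - 1) := mul_nonneg (by positivity) (by linarith)
    have hq' : 0 ≤ (q : ℤ) * (q - 13) := mul_nonneg (by positivity) (by linarith)
    nlinarith

/-- the classification -/
theorem classification {G : SimpleGraph Γ}
    (hinv : ∀ g x y, G.Adj x y → G.Adj (g + x) (g + y)) {p q : ℕ} (hp : Partitionable G p q)
    (hw : NoWeakPair G)
    (h : p ≤ 4 ∨ q ≤ 4 ∨ (2 * p < 3 * q ∧ 2 * q < 3 * p ∧ ¬ (6 ∣ p ∧ 6 ∣ q)) ∨
      bnd p + bnd q < 24 * (p * q) ∨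
      (¬ (Even p ∧ Even q) ∧ 6 ^ (min p q / 2) < p * q + 1)) :
    IsOddHole G ∨ IsOddHole Gᶜ ∨ Nonempty (G ≃g G17) := by
  by_cases hp4 : p ≤ 4
  · rcases small (inv_compl hinv) hp.compl hw.compl hp4 with h1 | h1 | h1
    · right; left; exact h1
    · left; rwa [compl_compl] at h1
    · right; right; exact iso_of_compl h1
  by_cases hq4 : q ≤ 4
  · exact small hinv hp hw hq4
  have h' := (h.resolve_left hp4).resolve_left hq4
  exfalso
  obtain ⟨A, B, hA, hB, H, -, hcov⟩ := setup hinv hp hw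
  have hAne : A.Nonempty := card_pos.mp (by omega)
  have hBne : B.Nonempty := card_pos.mp (by omega)
  obtain ⟨c, hc⟩ := H.symm_left hBne
  obtain ⟨c', hc'⟩ := H.comm.symm_left hAne
  have hcard := H.card
  rw [hA, hB] at hcard
  have hcc := cover_card hcov
  rw [hcard] at hcc
  have hpq : p * q ≤ (diffs A).card + (diffs B).card := by
    have : q * p = p * q := mul_comm _ _
    omega
  rcases h' with ⟨h1, h2, h3⟩ | h1 | ⟨h1, h2⟩
  · have hA2 := bound2 hc
    have hB2 := bound2 hc'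
    rw [hA] at hA2
    rw [hB] at hB2
    have hA3 : ¬ 3 ∣ q → 3 * (diffs A).card ≤ q ^ 2 + 2 * q := fun h3 => by
      have := bound3 H hBne (by rw [hA]; exact h3)
      rwa [hA] at this
    have hB3 : ¬ 3 ∣ p → 3 * (diffs B).card ≤ p ^ 2 + 2 * p := fun h3 => by
      have := bound3 H.comm hAne (by rw [hB]; exact h3)
      rwa [hB] at this
    by_cases hq3 : 3 ∣ q
    · by_cases hp3 : 3 ∣ p
      · obtain ⟨a, ha⟩ := hq3
        obtain ⟨b, hb⟩ := hp3
        have caseA : Odd q → False := by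
          rintro ⟨m, hm⟩
          have hf := fixc_one hc H (by rw [hA]; exact ⟨m, hm⟩) (by omega)
          have h8 := bound8 hc H (m := m) (by rw [hA, hm]) hf
          refine arith9 (a := a) (b := b) (x := (diffs A).card) (y := (diffs B).card)
            (by omega) (by omega) ?_ ?_ ?_
          · have e : 3 * a = 2 * m + 1 := by omega
            nlinarith
          · rw [hb] at hB2; nlinarith
          · rw [ha, hb] at hpq; nlinarith
        have caseB : Odd p → False := by
          rintro ⟨m, hm⟩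
          have hf := fixc_one hc' H.comm (by rw [hB]; exact ⟨m, hm⟩) (by omega)
          have h8 := bound8 hc' H.comm (m := m) (by rw [hB, hm]) hf
          refine arith9 (a := b) (b := a) (x := (diffs B).card) (y := (diffs A).card)
            (by omega) (by omega) ?_ ?_ ?_
          · have e : 3 * b = 2 * m + 1 := by omega
            nlinarith
          · rw [ha] at hA2; nlinarith
          · rw [ha, hb] at hpq; nlinarith
        rcases Nat.even_or_odd q with hqe | hqo
        · rcases Nat.even_or_odd p with hpe | hpo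
          · apply h3
            obtain ⟨r, hr⟩ := hqe
            obtain ⟨t, ht⟩ := hpe
            constructor <;> omega
          · exact caseB hpo
        · exact caseA hqo
      · exact arith3 (by omega) (by omega) hp3 h2 h1 (hB3 hp3) hA2 (fun h => absurd hq3 h)
          (by rw [mul_comm, add_comm]; exact hpq)
    · exact arith3 (by omega) (by omega) hq3 h1 h2 (hA3 hq3) hB2 hB3 hpq
  · have a1 := diffs_le_bnd hc H (by omega)
    have a2 := diffs_le_bnd hc' H.comm (by omega)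
    rw [hA] at a1
    rw [hB] at a2
    omega
  · have hev : ¬ (Even A.card ∧ Even B.card) := by
      rw [hA, hB]
      exact fun h => h1 ⟨h.2, h.1⟩
    refine large H (by omega) (by omega) hev ?_ hcov
    rw [hA, hB, min_comm, mul_comm]
    exact h2

end Pool.Agent.H51.PG
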