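import Pool.Agent.H51.PG.NF

/-! The bounds `2|A-A| <= q^2` and (if `3` does not divide `q`) `3|A-A| <= q^2+2q`
for the nonzero differences of a factor of a near factorisation. -/

namespace Pool.Agent.H51.PG

open Finset

variable {Γ : Type*} [AddCommGroup Γ] [Fintype Γ] [DecidableEq Γ]

/-- number of solutions of `3x + y = g` -/
def rep3 (X Y : Finset Γ) (g : Γ) : ℕ := ((X ×ˢ Y).filter (fun z => (3 : ℕ) • z.1 + z.2 = g)).card

theorem sum_rep3 (X Y : Finset Γ) : ∑ g, rep3 X Y g = X.card * Y.card := by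
  unfold rep3
  rw [← card_product]
  exact (card_eq_sum_card_fiberwise (f := fun z : Γ × Γ => (3 : ℕ) • z.1 + z.2) (t := univ)
    (s := X ×ˢ Y) (fun _ _ => mem_univ _)).symm

theorem charP3 : CharP (AddMonoidAlgebra (ZMod 3) Γ) 3 :=
  charP_of_injective_algebraMap (FaithfulSMul.algebraMap_injective (ZMod 3) (AddMonoidAlgebra (ZMod 3) Γ)) 3

/-- Frobenius: `rep3 (g+h) + rep X X g = q^2` mod `3` -/
theorem rep3_mod {X Y : Finset Γ} {h : Γ} (H : NF X Y h) (g : Γ) :
    (rep3 X Y (g + h) : ZMod 3) + (rep X X g : ZMod 3) = (X.card : ZMod 3) ^ 2 := by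
  haveI : CharP (AddMonoidAlgebra (ZMod 3) Γ) 3 := charP3
  haveI : Fact (Nat.Prime 3) := ⟨Nat.prime_three⟩
  have e1 : (el (ZMod 3) X) ^ 3 = ∑ x ∈ X, AddMonoidAlgebra.single ((3 : ℕ) • x) (1 : ZMod 3) := by
    unfold el
    rw [sum_pow_char]
    refine sum_congr rfl (fun x _ => ?_)
    rw [AddMonoidAlgebra.single_pow, one_pow]
  have e2 : ((el (ZMod 3) X) ^ 3 * el (ZMod 3) Y).coeff (g + h) = (rep3 X Y (g + h) : ZMod 3) := by
    rw [e1]
    unfold el rep3
    rw [Finset.sum_mul_sum]
    simp only [AddMonoidAlgebra.single_mul_single, mul_one]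
    rw [AddMonoidAlgebra.coeff_sum, Finsupp.finset_sum_apply]
    simp only [AddMonoidAlgebra.coeff_sum, Finsupp.finset_sum_apply, AddMonoidAlgebra.coeff_single,
      Finsupp.single_apply]
    rw [Finset.card_filter, Nat.cast_sum, Finset.sum_product]
    simp
  have e3 : (el (ZMod 3) X) ^ 3 * el (ZMod 3) Y
      = (((X.card : ZMod 3) ^ 2) • el (ZMod 3) univ)
        - (el (ZMod 3) X * el (ZMod 3) X) * AddMonoidAlgebra.single h 1 := by
    have : (el (ZMod 3) X) ^ 3 * el (ZMod 3) Y
        = (el (ZMod 3) X * (el (ZMod 3) X * (el (ZMod 3) X * el (ZMod 3) Y))) := by ring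
    rw [this, H.mul (ZMod 3), mul_sub, el_univ_mul, mul_sub, mul_smul_comm, el_univ_mul, smul_smul]
    ring_nf
  rw [← e2, e3, AddMonoidAlgebra.coeff_sub, Finsupp.sub_apply, AddMonoidAlgebra.coeff_smul,
    Finsupp.smul_apply, el_coeff, AddMonoidAlgebra.coeff_mul_single_apply]
  have e4 : g + h + -h = g := by abel
  rw [e4, mul_one, mul_coeff]
  simp

theorem rep_self_one {X : Finset Γ} {g : Γ} (h : rep X X g = 1) : g ∈ X.image (fun x => x + x) := by
  unfold rep at h
  rw [card_eq_one] at h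
  obtain ⟨⟨a, b⟩, hab⟩ := h
  have h1 : (a, b) ∈ (X ×ˢ X).filter (fun z => z.1 + z.2 = g) := by rw [hab]; simp
  simp only [mem_filter, mem_product] at h1
  have h2 : (b, a) ∈ (X ×ˢ X).filter (fun z => z.1 + z.2 = g) := by
    simp only [mem_filter, mem_product]
    exact ⟨⟨h1.1.2, h1.1.1⟩, by rw [add_comm]; exact h1.2⟩
  rw [hab, mem_singleton, Prod.mk.injEq] at h2
  rw [mem_image]
  refine ⟨a, h1.1.1, ?_⟩
  have := h1.2
  rw [h2.1] at this
  exact this

theorem rep_center {X : Finset Γ} {c : Γ} (hc : ∀ x, x ∈ X ↔ c - x ∈ X) : rep X X c = X.card := by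
  unfold rep
  refine card_bij (fun z _ => z.1) ?_ ?_ ?_
  · intro z hz
    simp only [mem_filter, mem_product] at hz
    exact hz.1.1
  · rintro ⟨a, b⟩ h ⟨d, e⟩ h' had
    simp only [mem_filter, mem_product] at h h' had ⊢
    subst had
    have := h.2.trans h'.2.symm
    rw [add_left_cancel this]
  · intro a ha
    refine ⟨(a, c - a), ?_, rfl⟩
    simp only [mem_filter, mem_product]
    exact ⟨⟨ha, (hc a).mp ha⟩, by abel⟩

theorem card_supp {X : Finset Γ} {c : Γ} (hc : ∀ x, x ∈ X ↔ c - x ∈ X) :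
    ((univ.erase c).filter (fun g => 0 < rep X X g)).card = (diffs X).card := by
  symm
  refine card_bij (fun d _ => d + c) ?_ ?_ ?_
  · intro d hd
    rw [mem_diffs] at hd
    obtain ⟨h0, x, hx, y, hy, he⟩ := hd
    simp only [mem_filter, mem_erase, mem_univ, and_true]
    refine ⟨fun h => h0 (by simpa using h), rep_pos.mpr ⟨x, hx, c - y, (hc y).mp hy, ?_⟩⟩
    rw [← he]; abel
  · intro a _ b _ h
    exact add_right_cancel h
  · intro g hg
    simp only [mem_filter, mem_erase, mem_univ, and_true] at hg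
    obtain ⟨x, hx, y, hy, he⟩ := rep_pos.mp hg.2
    refine ⟨g - c, ?_, by abel⟩
    rw [mem_diffs]
    refine ⟨sub_ne_zero.mpr hg.1, x, hx, c - y, (hc y).mp hy, ?_⟩
    rw [← he]; abel

theorem sum_rep_erase {X : Finset Γ} {c : Γ} (hc : ∀ x, x ∈ X ↔ c - x ∈ X) :
    ∑ g ∈ univ.erase c, rep X X g + X.card = X.card ^ 2 := by
  have h1 := sum_rep X X
  rw [← Finset.sum_erase_add _ _ (mem_univ c), rep_center hc] at h1
  rw [h1]; ring

theorem bound2_aux {X : Finset Γ} {c : Γ} (hc : ∀ x, x ∈ X ↔ c - x ∈ X) :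
    2 * (diffs X).card + X.card ≤ X.card ^ 2 + ((X.image (fun x => x + x)).erase c).card := by
  rw [← card_supp hc, ← sum_rep_erase hc]
  have h1 : ∀ g ∈ univ.erase c, (2 * if 0 < rep X X g then 1 else 0) ≤
      rep X X g + if g ∈ (X.image (fun x => x + x)).erase c then 1 else 0 := by
    intro g hg
    rw [mem_erase] at hg
    by_cases h : rep X X g = 1
    · rw [if_pos (by omega), if_pos (mem_erase.mpr ⟨hg.1, rep_self_one h⟩)]; omega
    · split_ifs <;> omega
  have h2 := sum_le_sum h1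
  rw [← mul_sum, sum_add_distrib] at h2
  have h3 : ∑ g ∈ univ.erase c, (if 0 < rep X X g then 1 else 0)
      = ((univ.erase c).filter (fun g => 0 < rep X X g)).card := by
    rw [card_filter]
  have h4 : ∑ g ∈ univ.erase c, (if g ∈ (X.image (fun x => x + x)).erase c then 1 else 0)
      ≤ ((X.image (fun x => x + x)).erase c).card := by
    rw [← card_filter]
    refine card_le_card (fun g hg => ?_)
    rw [mem_filter] at hg
    exact hg.2
  rw [h3] at h2
  omega

theorem bound2 {X : Finset Γ} {c : Γ} (hc : ∀ x, x ∈ X ↔ c - x ∈ X) :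
    2 * (diffs X).card ≤ X.card ^ 2 := by
  have h1 := bound2_aux hc
  have h2 : ((X.image (fun x => x + x)).erase c).card ≤ X.card :=
    (card_erase_le).trans card_image_le
  omega

theorem bound2_odd {X : Finset Γ} {c : Γ} (hc : ∀ x, x ∈ X ↔ c - x ∈ X) (ho : Odd X.card) :
    2 * (diffs X).card + 1 ≤ X.card ^ 2 := by
  have h1 := bound2_aux hc
  have h3 : c ∈ X.image (fun x => x + x) := by
    by_contra hn
    have h4 : ∑ x ∈ X, (1 : ZMod 2) = 0 := by
      refine Finset.sum_involution (fun x _ => c - x) ?_ ?_ ?_ ?_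
      · intro a _; decide
      · intro a ha _ he
        apply hn
        rw [mem_image]
        refine ⟨a, ha, ?_⟩
        nth_rw 1 [← he]
        abel
      · intro a ha; exact (hc a).mp ha
      · intro a ha; abel
    rw [sum_const, nsmul_eq_mul, mul_one] at h4
    have h5 := (ZMod.natCast_eq_zero_iff X.card 2).mp h4
    obtain ⟨k, hk⟩ := ho
    omega
  have h2 : ((X.image (fun x => x + x)).erase c).card + 1 ≤ X.card := by
    have h5 := card_erase_add_one h3
    rw [h5]; exact card_image_le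
  omega

theorem bound3 {X Y : Finset Γ} {h : Γ} (H : NF X Y h) (hY : Y.Nonempty) (h3 : ¬ 3 ∣ X.card) :
    3 * (diffs X).card ≤ X.card ^ 2 + 2 * X.card := by
  obtain ⟨c, hc⟩ := H.symm_left hY
  have hq : (X.card : ZMod 3) ^ 2 = 1 := by
    have : (X.card : ZMod 3) ≠ 0 := by
      intro h0
      exact h3 ((ZMod.natCast_eq_zero_iff X.card 3).mp h0)
    revert this
    generalize (X.card : ZMod 3) = z
    revert z
    decide
  have hmod : ∀ g, (rep3 X Y (g + h) + rep X X g) % 3 = 1 := by
    intro g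
    have := rep3_mod H g
    rw [hq] at this
    have h4 : ((rep3 X Y (g + h) + rep X X g : ℕ) : ZMod 3) = ((1 : ℕ) : ZMod 3) := by
      push_cast; exact this
    rw [ZMod.natCast_eq_natCast_iff] at h4
    exact h4
  have h1 : ∀ g ∈ univ.erase c, (3 * if 0 < rep X X g then 1 else 0) + 1 ≤
      rep X X g + rep3 X Y (g + h) + 3 * if g ∈ X.image (fun x => x + x) then 1 else 0 := by
    intro g hg
    have hm := hmod g
    by_cases h : rep X X g = 1
    · rw [if_pos (by omega), if_pos (rep_self_one h)]; omega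
    · split_ifs <;> omega
  have h2 := sum_le_sum h1
  rw [sum_add_distrib, ← mul_sum, sum_add_distrib, sum_add_distrib, ← mul_sum] at h2
  have e3 : ∑ g ∈ univ.erase c, (if 0 < rep X X g then 1 else 0)
      = ((univ.erase c).filter (fun g => 0 < rep X X g)).card := by
    rw [card_filter]
  have e4 : ∑ g ∈ univ.erase c, (if g ∈ X.image (fun x => x + x) then 1 else 0)
      ≤ X.card := by
    rw [← card_filter]
    refine (card_le_card (fun g hg => ?_)).trans (card_image_le (s := X) (f := fun x => x + x))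
    rw [mem_filter] at hg
    exact hg.2
  have e5 : ∑ g ∈ univ.erase c, rep3 X Y (g + h) ≤ X.card * Y.card := by
    rw [← sum_rep3 X Y, ← Equiv.sum_comp (Equiv.addRight h) (fun g => rep3 X Y g)]
    exact sum_le_sum_of_subset (erase_subset _ _)
  have e6 : ∑ g ∈ univ.erase c, 1 = X.card * Y.card := by
    rw [sum_const, smul_eq_mul, mul_one, card_erase_of_mem (mem_univ c), card_univ, H.card]
    rfl
  have e7 := sum_rep_erase hc
  rw [e3, card_supp hc, e6] at h2
  nlinarith

end Pool.Agent.H51.PG
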