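import Pool.Agent.H51.PG.Three

/-! Factors with four elements. -/

namespace Pool.Agent.H51.PG

open Finset

theorem tiling {v : ℕ → ℕ} {p δ n : ℕ} (hn : n = 4 * p + 1) (hδ1 : 1 ≤ δ) (hδ2 : δ ≤ 2 * p)
    (hper : ∀ j, v (j + n) = v j) (h1 : ∀ j, 1 ≤ j → j ≤ 2 * p → v j + v (j + δ) = 1)
    (h0 : ∀ j, 2 * p + 1 ≤ j → j ≤ n → v j + v (j + δ) = 0) :
    ∃ k, p = δ * k ∧ ∀ j, 1 ≤ j → j ≤ n → v j ≠ 0 → j ≤ 2 * p ∧ ((j - 1) / δ) % 2 = 1 := by
  have hsmall : ∀ i, 1 ≤ i → i ≤ δ → v i = 0 := by
    intro i hi1 hi2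
    have h := h0 (i + n - δ) (by omega) (by omega)
    have e : i + n - δ + δ = i + n := by omega
    rw [e, hper] at h
    omega
  have hbig : ∀ i, 2 * p + 1 ≤ i → i ≤ n → v i = 0 := by
    intro i hi1 hi2
    have h := h0 i hi1 hi2
    omega
  have hval : ∀ i, 1 ≤ i → i ≤ 2 * p + δ → v i = ((i - 1) / δ) % 2 := by
    intro i
    induction i using Nat.strong_induction_on with
    | _ i ih =>
      intro hi1 hi2
      by_cases hle : i ≤ δ
      · rw [hsmall i hi1 hle, Nat.div_eq_of_lt (by omega)]
      · have h := h1 (i - δ) (by omega) (by omega)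
        have e : i - δ + δ = i := by omega
        rw [e, ih (i - δ) (by omega) (by omega) (by omega)] at h
        have e2 : (i - 1) / δ = (i - δ - 1) / δ + 1 := by
          have : i - 1 = (i - δ - 1) + δ := by omega
          rw [this, Nat.add_div_right _ (by omega)]
        rw [e2]
        omega
  have ha := hval (2 * p + 1) (by omega) (by omega)
  rw [hbig _ le_rfl (by omega)] at ha
  have hb := hval (2 * p + δ) (by omega) le_rfl
  rw [hbig (2 * p + δ) (by omega) (by omega)] at hb
  have e1 : 2 * p + 1 - 1 = 2 * p := by omega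
  rw [e1] at ha
  set m := 2 * p / δ with hm
  have hmod := Nat.div_add_mod (2 * p) δ
  rw [← hm] at hmod
  have hlt := Nat.mod_lt (2 * p) (show 0 < δ by omega)
  have hr : 2 * p % δ = 0 := by
    by_contra hne
    have e2 : (2 * p + δ - 1) / δ = m + 1 := by
      have : 2 * p + δ - 1 = (2 * p % δ + δ - 1) + δ * m := by omega
      rw [this, Nat.add_mul_div_left _ _ (by omega)]
      have : (2 * p % δ + δ - 1) / δ = 1 := by
        rw [Nat.div_eq_iff (by omega)]
        constructor <;> omega
      omega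
    rw [e2] at hb
    omega
  rw [hr, add_zero] at hmod
  refine ⟨m / 2, ?_, ?_⟩
  · have : m = 2 * (m / 2) := by omega
    rw [this] at hmod
    have : δ * (2 * (m / 2)) = 2 * (δ * (m / 2)) := by ring
    omega
  · intro j hj1 hj2 hvj
    have hj3 : j ≤ 2 * p := by
      by_contra hgt
      exact hvj (hbig j (by omega) hj2)
    refine ⟨hj3, ?_⟩
    have := hval j hj1 (by omega)
    rw [this] at hvj
    omega

variable {Γ : Type*} [AddCommGroup Γ] [Fintype Γ] [DecidableEq Γ]

theorem four_distinct {a b c d : Γ} (h : ({a, b, c, d} : Finset Γ).card = 4) :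
    a ∉ ({b, c, d} : Finset Γ) ∧ b ∉ ({c, d} : Finset Γ) ∧ c ≠ d := by
  have h1 := card_insert_le a ({b, c, d} : Finset Γ)
  have h2 := card_insert_le b ({c, d} : Finset Γ)
  have h3 := card_le_two (a := c) (b := d)
  refine ⟨?_, ?_, ?_⟩
  · intro hm
    rw [insert_eq_of_mem hm] at h
    omega
  · intro hm
    rw [insert_eq_of_mem hm] at h h1
    omega
  · intro hm
    rw [hm] at h1 h2 h
    simp only [mem_singleton, insert_eq_of_mem, card_singleton] at h1 h2 h
    omega

/-- data common to the four element case -/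
theorem four_rep {A B : Finset Γ} {α β w : Γ}
    (hA : A = {w + (α + β), w - (α + β), w + (α - β), w - (α - β)}) (hAc : A.card = 4) (g : Γ) :
    rep A B g = (ind B (g - α - β - w) + ind B (g - α + β - w))
      + (ind B (g - α + (α + α) - β - w) + ind B (g - α + (α + α) + β - w)) := by
  obtain ⟨h1, h2, h3⟩ := four_distinct (hA ▸ hAc)
  rw [rep_eq_sum, hA, sum_insert h1, sum_insert h2, sum_pair h3]
  have e1 : g - (w + (α + β)) = g - α - β - w := by abel
  have e2 : g - (w - (α + β)) = g - α + (α + α) + β - w := by abel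
  have e3 : g - (w + (α - β)) = g - α + β - w := by abel
  have e4 : g - (w - (α - β)) = g - α + (α + α) - β - w := by abel
  rw [e1, e2, e3, e4]
  ring

theorem half_mem {B : Finset Γ} (hcard : Fintype.card Γ = 4 * B.card + 1) (α : Γ) :
    α = (2 * B.card + 1) • (α + α) := by
  have : (2 * B.card + 1) • (α + α) = (4 * B.card + 1) • α + α := by
    rw [← two_nsmul, ← mul_nsmul', ← succ_nsmul]
    congr 1
    ring
  rw [this, ← hcard, card_nsmul_eq_zero, zero_add]

theorem four_gen {A B : Finset Γ} {α β w : Γ}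
    (hA : A = {w + (α + β), w - (α + β), w + (α - β), w - (α - β)}) (hAc : A.card = 4)
    (H : NF A B 0) : ∀ z, z ∈ AddSubgroup.zmultiples (α + α) := by
  have hcard := H.card
  rw [hAc] at hcard
  refine two_gen (t := fun g => ind B (g - β - w) + ind B (g + β - w)) (α := α) ?_ ?_
    ⟨2 * B.card, by rw [hcard]; ring⟩
  · have h := AddSubgroup.nsmul_mem_zmultiples (α + α) (2 * B.card + 1)
    rwa [← half_mem hcard α] at h
  · intro g hg
    have h1 := H g
    rw [if_neg hg, four_rep hA hAc] at h1
    exact h1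

theorem four_gen2 {B : Finset Γ} (hcard : Fintype.card Γ = 4 * B.card + 1) {e : Γ}
    (hgen : ∀ z, z ∈ AddSubgroup.zmultiples e) : ∀ z, z ∈ AddSubgroup.zmultiples (e + e) := by
  intro z
  obtain ⟨k, hk⟩ := AddSubgroup.mem_zmultiples_iff.mp (hgen z)
  rw [← hk]
  apply AddSubgroup.zsmul_mem
  have h := AddSubgroup.nsmul_mem_zmultiples (e + e) (2 * B.card + 1)
  rwa [← half_mem hcard e] at h

theorem four_core {A B : Finset Γ} {α β w : Γ} {δ : ℕ}
    (hA : A = {w + (α + β), w - (α + β), w + (α - β), w - (α - β)}) (hAc : A.card = 4)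
    (H : NF A B 0) (hB : 4 ≤ B.card) (hδ1 : 1 ≤ δ) (hδ2 : δ ≤ 2 * B.card)
    (hδ : β + β = δ • ((α + α) + (α + α)))
    (hcov : ∀ x, x ≠ 0 → x ∈ diffs A ∨ x ∈ diffs B) : B.card = 4 ∧ δ = 2 := by
  have hcard := H.card
  rw [hAc] at hcard
  have hgen := four_gen hA hAc H
  set e := α + α with he
  have hgen2 := four_gen2 hcard hgen
  set f := e + e with hf
  set n := Fintype.card Γ with hn
  set t : Γ → ℕ := fun g => ind B (g - β - w) + ind B (g + β - w) with ht
  have hrec : ∀ g, g ≠ 0 → t (g - α) + t (g - α + e) = 1 := by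
    intro g hg
    have h1 := H g
    rw [if_neg hg, four_rep hA hAc] at h1
    exact h1
  have hzero : t (0 - α) + t (0 - α + e) = 0 := by
    have h1 := H 0
    rw [if_pos rfl, four_rep hA hAc] at h1
    exact h1
  have hk0 : ∀ k : ℕ, 0 < k → k < n → k • e ≠ 0 := by
    intro k hk hkn h
    have := zsmul_eq_iff hgen k 0 hkn (by omega) (by rw [h, zero_nsmul])
    omega
  -- along e
  have hT : ∀ k, 1 ≤ k → k ≤ n → t (k • e - α) = (k + 1) % 2 := by
    intro k hk1
    induction k, hk1 using Nat.le_induction with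
    | base =>
      intro _
      have e1 : 0 - α + e = 1 • e - α := by rw [one_nsmul]; abel
      rw [e1] at hzero
      omega
    | succ k hk ih =>
      intro hkn
      have h1 := hrec (k • e) (hk0 k (by omega) (by omega))
      have e1 : k • e - α + e = (k + 1) • e - α := by rw [succ_nsmul]; abel
      rw [e1, ih (by omega)] at h1
      omega
  have hee : ∀ j : ℕ, j • f = (2 * j) • e := by
    intro j
    rw [hf, ← two_nsmul, ← mul_nsmul', mul_comm]
  have hS1 : ∀ j, 1 ≤ j → j ≤ 2 * B.card → t (j • f - α) = 1 := by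
    intro j hj1 hj2
    rw [hee, hT (2 * j) (by omega) (by omega)]
    omega
  have hS0 : ∀ j, 2 * B.card + 1 ≤ j → j ≤ n → t (j • f - α) = 0 := by
    intro j hj1 hj2
    have e1 : (2 * j) • e = (2 * j - n) • e := by
      have : 2 * j = (2 * j - n) + n := by omega
      nth_rw 1 [this]
      rw [add_nsmul, hn, card_nsmul_eq_zero, add_zero]
    rw [hee, e1, hT (2 * j - n) (by omega) (by omega)]
    omega
  set v : ℕ → ℕ := fun j => ind B (j • f - α - β - w) with hv
  have htv : ∀ j, t (j • f - α) = v j + v (j + δ) := by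
    intro j
    rw [ht, hv]
    simp only
    have e1 : (j + δ) • f - α - β - w = j • f - α + β - w := by
      have : (j + δ) • f = j • f + (β + β) := by rw [add_nsmul, hδ]
      rw [this]; abel
    rw [e1]
  obtain ⟨k, hpk, hvk⟩ := tiling (v := v) (p := B.card) (δ := δ) (n := n) hcard hδ1 hδ2
    (by intro j; rw [hv]; simp only; rw [add_nsmul, hn, card_nsmul_eq_zero, add_zero])
    (by intro j h1 h2; rw [← htv]; exact hS1 j h1 h2)
    (by intro j h1 h2; rw [← htv]; exact hS0 j h1 h2)
  have hk1 : 1 ≤ k := by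
    rcases Nat.eq_zero_or_pos k with h | h
    · rw [h, mul_zero] at hpk; omega
    · exact h
  -- coordinates of the elements of B
  have hcoord : ∀ x ∈ B, ∃ i l : ℕ, i < δ ∧ l < k ∧
      x = (i + δ * (2 * l + 1) + 1) • f - α - β - w := by
    intro x hx
    obtain ⟨j, hj, hxj⟩ := exists_nsmul hgen2 (x + w + β + α)
    obtain ⟨j', hj1, hj2, hxj'⟩ : ∃ j', 1 ≤ j' ∧ j' ≤ n ∧ x + w + β + α = j' • f := by
      rcases Nat.eq_zero_or_pos j with h | h
      · refine ⟨n, by omega, le_rfl, ?_⟩
        rw [hxj, h, zero_nsmul, hn, card_nsmul_eq_zero]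
      · exact ⟨j, h, hj.le, hxj⟩
    have hvx : v j' ≠ 0 := by
      rw [hv]
      simp only
      have : j' • f - α - β - w = x := by rw [← hxj']; abel
      rw [this, ind, if_pos hx]
      exact one_ne_zero
    obtain ⟨h1, h2⟩ := hvk j' hj1 hj2 hvx
    have hdm := Nat.div_add_mod (j' - 1) δ
    have hlt := Nat.mod_lt (j' - 1) (show 0 < δ by omega)
    refine ⟨(j' - 1) % δ, (j' - 1) / δ / 2, hlt, ?_, ?_⟩
    · have h3 : (j' - 1) / δ < 2 * k := by
        rw [Nat.div_lt_iff_lt_mul (by omega)]
        have : 2 * k * δ = 2 * (δ * k) := by ring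
        rw [this, ← hpk]; omega
      omega
    · have e1 : 2 * ((j' - 1) / δ / 2) + 1 = (j' - 1) / δ := by omega
      rw [e1]
      have e2 : (j' - 1) % δ + δ * ((j' - 1) / δ) + 1 = j' := by omega
      rw [e2, ← hxj']; abel
  have hBd : (diffs B).card + 1 ≤ (2 * δ - 1) * (2 * k - 1) := by
    set I := ((Icc (-((δ : ℤ) - 1)) ((δ : ℤ) - 1)) ×ˢ (Icc (-((k : ℤ) - 1)) ((k : ℤ) - 1))).image
      (fun z => (z.1 + 2 * (δ : ℤ) * z.2) • f) with hI
    have h0I : (0 : Γ) ∈ I := by
      rw [hI, mem_image]
      refine ⟨(0, 0), ?_, by simp⟩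
      rw [mem_product, mem_Icc, mem_Icc]
      simp only
      omega
    have hsub : diffs B ⊆ I.erase 0 := by
      intro g hg
      rw [mem_diffs] at hg
      obtain ⟨hg0, x, hx, y, hy, hxy⟩ := hg
      rw [mem_erase]
      refine ⟨hg0, ?_⟩
      obtain ⟨i, l, hi, hl, hxe⟩ := hcoord x hx
      obtain ⟨i', l', hi', hl', hye⟩ := hcoord y hy
      rw [hI, mem_image]
      refine ⟨((i : ℤ) - i', (l : ℤ) - l'), ?_, ?_⟩
      · rw [mem_product, mem_Icc, mem_Icc]
        simp only
        omega
      · simp only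
        rw [← hxy, hxe, hye]
        have e1 : (i + δ * (2 * l + 1) + 1) • f - α - β - w - ((i' + δ * (2 * l' + 1) + 1) • f - α - β - w)
            = (i + δ * (2 * l + 1) + 1) • f - (i' + δ * (2 * l' + 1) + 1) • f := by abel
        have e3 : ∀ P Q : ℤ, P • f - Q • f = (P - Q) • f := by
          intro P Q
          rw [sub_zsmul, sub_eq_add_neg]
        rw [e1, ← natCast_zsmul, ← natCast_zsmul, e3]
        congr 1
        push_cast
        ring
    have h1 := card_le_card hsub
    rw [card_erase_of_mem h0I] at h1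
    have h2 : I.card ≤ (2 * δ - 1) * (2 * k - 1) := by
      rw [hI]
      refine card_image_le.trans ?_
      rw [card_product, Int.card_Icc, Int.card_Icc]
      apply Nat.mul_le_mul <;> omega
    have h3 : 0 < I.card := card_pos.mpr ⟨0, h0I⟩
    omega
  have hAd : (diffs A).card ≤ 8 := by
    have hsub : diffs A ⊆ List.toFinset [α + β + (α + β), -(α + β + (α + β)), α - β + (α - β),
        -(α - β + (α - β)), α + α, -(α + α), β + β, -(β + β)] := by
      intro g hg
      rw [mem_diffs, hA] at hg
      obtain ⟨h0, x, hx, y, hy, hxy⟩ := hg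
      simp only [List.mem_toFinset, List.mem_cons, List.not_mem_nil, or_false]
      simp only [mem_insert, mem_singleton] at hx hy
      rcases hx with rfl | rfl | rfl | rfl <;> rcases hy with rfl | rfl | rfl | rfl
      · exact absurd (by rw [← hxy]; abel) h0
      · left; rw [← hxy]; abel
      · iterate 6 right
        left; rw [← hxy]; abel
      · iterate 4 right
        left; rw [← hxy]; abel
      · right; left; rw [← hxy]; abel
      · exact absurd (by rw [← hxy]; abel) h0
      · iterate 5 right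
        left; rw [← hxy]; abel
      · iterate 7 right
        rw [← hxy]; abel
      · iterate 7 right
        rw [← hxy]; abel
      · iterate 4 right
        left; rw [← hxy]; abel
      · exact absurd (by rw [← hxy]; abel) h0
      · iterate 2 right
        left; rw [← hxy]; abel
      · iterate 5 right
        left; rw [← hxy]; abel
      · iterate 6 right
        left; rw [← hxy]; abel
      · iterate 3 right
        left; rw [← hxy]; abel
      · exact absurd (by rw [← hxy]; abel) h0
    refine (card_le_card hsub).trans ?_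
    exact List.toFinset_card_le _
  have hc := cover_card hcov
  rw [← hn, hcard] at hc
  obtain ⟨a, rfl⟩ : ∃ a, δ = a + 1 := ⟨δ - 1, by omega⟩
  obtain ⟨b, rfl⟩ : ∃ b, k = b + 1 := ⟨k - 1, by omega⟩
  have e1 : 2 * (a + 1) - 1 = 2 * a + 1 := by omega
  have e2 : 2 * (b + 1) - 1 = 2 * b + 1 := by omega
  rw [e1, e2] at hBd
  have hab : a + b ≤ 2 := by nlinarith
  have ha2 : a ≤ 2 := by omega
  have hb2 : b ≤ 2 := by omega
  interval_cases a <;> interval_cases b <;> omega

end Pool.Agent.H51.PG
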