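import Pool.Agent.H51.PG.Four

/-! Factors with four elements: only the graph on 17 vertices. -/

namespace Pool.Agent.H51.PG

open Finset

/-- distances of `G_17` -/
def D17 : Finset (ZMod 17) := {1, 16, 3, 14, 4, 13, 5, 12}

theorem diffs17 : diffs ({6, 7, 10, 11} : Finset (ZMod 17)) = D17 := by decide

variable {Γ : Type*} [AddCommGroup Γ] [Fintype Γ] [DecidableEq Γ]

theorem double_inj {B : Finset Γ} (hcard : Fintype.card Γ = 4 * B.card + 1) {x y : Γ}
    (h : x + x = y + y) : x = y := by
  rw [half_mem hcard x, half_mem hcard y, h]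

theorem diffs_image (X : Finset (ZMod 17)) (φ : ZMod 17 ≃+ Γ) (w : Γ) (x : Γ) :
    x ∈ diffs (X.image (fun y => w + φ y)) ↔ φ.symm x ∈ diffs X := by
  rw [mem_diffs, mem_diffs]
  constructor
  · rintro ⟨h0, a, ha, b, hb, he⟩
    obtain ⟨a', ha', rfl⟩ := mem_image.mp ha
    obtain ⟨b', hb', rfl⟩ := mem_image.mp hb
    have : x = φ (a' - b') := by rw [← he, map_sub]; abel
    rw [this, AddEquiv.symm_apply_apply]
    refine ⟨?_, a', ha', b', hb', rfl⟩
    intro h
    rw [this, h, map_zero] at h0
    exact h0 rfl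
  · rintro ⟨h0, a, ha, b, hb, he⟩
    refine ⟨?_, w + φ a, mem_image_of_mem _ ha, w + φ b, mem_image_of_mem _ hb, ?_⟩
    · intro h; apply h0; rw [h, map_zero]
    · have : w + φ a - (w + φ b) = φ (a - b) := by rw [map_sub]; abel
      rw [this, he, AddEquiv.apply_symm_apply]

theorem four_end {A B : Finset Γ} {α β w : Γ}
    (hA : A = {w + (α + β), w - (α + β), w + (α - β), w - (α - β)}) (hAc : A.card = 4)
    (H : NF A B 0) (hB : 4 ≤ B.card) (hβ : β ≠ 0)
    (hcov : ∀ x, x ≠ 0 → x ∈ diffs A ∨ x ∈ diffs B) :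
    B.card = 4 ∧ A = {w + 5 • α, w - 5 • α, w + 3 • α, w - 3 • α} := by
  have hcard := H.card
  rw [hAc] at hcard
  have hgen2 := four_gen2 hcard (four_gen hA hAc H)
  obtain ⟨δ, hδn, hδ⟩ := exists_nsmul hgen2 (β + β)
  have hδ1 : 1 ≤ δ := by
    rcases Nat.eq_zero_or_pos δ with h | h
    · exfalso
      apply hβ
      apply double_inj hcard
      rw [hδ, h, zero_nsmul, add_zero]
    · exact h
  have key : ∀ γ : Γ, γ + γ = 2 • ((α + α) + (α + α)) → γ = 4 • α := by
    intro γ hγ
    apply double_inj hcard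
    rw [hγ, ← two_nsmul α, ← two_nsmul (2 • α), ← two_nsmul (4 • α), ← mul_nsmul, ← mul_nsmul,
      ← mul_nsmul]
  by_cases hle : δ ≤ 2 * B.card
  · obtain ⟨h4, h2⟩ := four_core hA hAc H hB hδ1 hle hδ hcov
    refine ⟨h4, ?_⟩
    rw [h2] at hδ
    have hb := key β hδ
    rw [hA, hb]
    have e1 : w + (α + 4 • α) = w + 5 • α := by rw [succ_nsmul' α 4]
    have e2 : w - (α + 4 • α) = w - 5 • α := by rw [succ_nsmul' α 4]
    have e3 : w + (α - 4 • α) = w - 3 • α := by rw [succ_nsmul' α 3]; abel
    have e4 : w - (α - 4 • α) = w + 3 • α := by rw [succ_nsmul' α 3]; abel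
    rw [e1, e2, e3, e4, pair_comm (w - 3 • α)]
  · have hA' : A = {w + (α + -β), w - (α + -β), w + (α - -β), w - (α - -β)} := by
      rw [hA]
      have e1 : α + -β = α - β := by abel
      have e2 : α - -β = α + β := by abel
      rw [e1, e2]
      ext z
      simp only [mem_insert, mem_singleton]
      tauto
    have hδ' : -β + -β = (Fintype.card Γ - δ) • ((α + α) + (α + α)) := by
      have : (Fintype.card Γ - δ) • ((α + α) + (α + α)) + δ • ((α + α) + (α + α)) = 0 := by
        rw [← add_nsmul, Nat.sub_add_cancel hδn.le, card_nsmul_eq_zero]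
      rw [eq_neg_of_add_eq_zero_left this, ← hδ]; abel
    obtain ⟨h4, h2⟩ := four_core hA' hAc H hB (by omega) (by omega) hδ' hcov
    refine ⟨h4, ?_⟩
    rw [h2] at hδ'
    have hb := key (-β) hδ'
    rw [hA', sub_eq_add_neg α (-β), hb]
    have e1 : w + (α + 4 • α) = w + 5 • α := by rw [succ_nsmul' α 4]
    have e2 : w - (α + 4 • α) = w - 5 • α := by rw [succ_nsmul' α 4]
    have e3 : w + (α + -(4 • α)) = w - 3 • α := by rw [succ_nsmul' α 3]; abel
    have e4 : w - (α + -(4 • α)) = w + 3 • α := by rw [succ_nsmul' α 3]; abel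
    rw [e1, e2, e3, e4, pair_comm (w - 3 • α)]

theorem four_main {A B : Finset Γ} (hAc : A.card = 4) (H : NF A B 0) (hB : 4 ≤ B.card)
    (hcov : ∀ x, x ≠ 0 → x ∈ diffs A ∨ x ∈ diffs B) :
    ∃ φ : ZMod 17 ≃+ Γ, ∀ x, x ∈ diffs A ↔ φ.symm x ∈ D17 := by
  obtain ⟨c, hc⟩ := H.symm_left (card_pos.mp (by omega))
  have hcard := H.card
  rw [hAc] at hcard
  obtain ⟨w, hw⟩ : ∃ w, w + w = c := by
    refine ⟨(2 * B.card + 1) • c, ?_⟩
    rw [← nsmul_add]
    exact (half_mem hcard c).symm
  have hwA : w ∉ A := by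
    intro hwA
    have h4 : ∑ x ∈ A.erase w, (1 : ZMod 2) = 0 := by
      refine Finset.sum_involution (fun x _ => c - x) ?_ ?_ ?_ ?_
      · intro a _; decide
      · intro a ha _ he
        apply (mem_erase.mp ha).1
        apply double_inj hcard
        rw [hw]
        nth_rw 1 [← he]
        abel
      · intro a ha
        rw [mem_erase] at ha ⊢
        refine ⟨?_, (hc a).mp ha.2⟩
        intro h
        apply ha.1
        have : a = c - (c - a) := by abel
        rw [this, h, ← hw]; abel
      · intro a ha; abel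
    rw [sum_const, nsmul_eq_mul, mul_one, card_erase_of_mem hwA, hAc] at h4
    revert h4
    decide
  have hflip : ∀ a, w + a ∈ A → w - a ∈ A := by
    intro a ha
    have h := (hc _).mp ha
    have : c - (w + a) = w - a := by rw [← hw]; abel
    rwa [this] at h
  have hneq : ∀ a, w + a ∈ A → w + a ≠ w - a := by
    intro a ha h
    have h1 : a + a = 0 + 0 := by
      have : a + a = (w + a) - (w - a) := by abel
      rw [this, h, sub_self, add_zero]
    have h2 := double_inj hcard h1
    rw [h2, add_zero] at ha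
    exact hwA ha
  obtain ⟨a1, ha1⟩ : A.Nonempty := card_pos.mp (by omega)
  obtain ⟨a, rfl⟩ : ∃ a, a1 = w + a := ⟨a1 - w, by abel⟩
  have hrest : ((A.erase (w + a)).erase (w - a)).Nonempty := by
    rw [← card_pos, card_erase_of_mem (mem_erase.mpr ⟨(hneq a ha1).symm, hflip a ha1⟩),
      card_erase_of_mem ha1, hAc]
    norm_num
  obtain ⟨b1, hb1⟩ := hrest
  obtain ⟨b, rfl⟩ : ∃ b, b1 = w + b := ⟨b1 - w, by abel⟩
  rw [mem_erase, mem_erase] at hb1
  obtain ⟨hb1, hb2, hb3⟩ := hb1
  have hAeq : A = {w + a, w - a, w + b, w - b} := by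
    symm
    apply eq_of_subset_of_card_le
    · intro z hz
      simp only [mem_insert, mem_singleton] at hz
      rcases hz with rfl | rfl | rfl | rfl
      · exact ha1
      · exact hflip _ ha1
      · exact hb3
      · exact hflip _ hb3
    · rw [hAc]
      have n1 : w - b ≠ w + a := by
        intro h; apply hb1
        have : b = -a := by
          have : b = w - (w - b) := by abel
          rw [this, h]; abel
        rw [this]; abel
      have n2 : w - b ≠ w - a := by
        intro h; apply hb2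
        have : b = a := by
          have : b = w - (w - b) := by abel
          rw [this, h]; abel
        rw [this]
      have m1 : w + a ∉ ({w - a, w + b, w - b} : Finset Γ) := by
        simp only [mem_insert, mem_singleton, not_or]
        exact ⟨hneq a ha1, hb2.symm, n1.symm⟩
      have m2 : w - a ∉ ({w + b, w - b} : Finset Γ) := by
        simp only [mem_insert, mem_singleton, not_or]
        exact ⟨hb1.symm, n2.symm⟩
      rw [card_insert_of_notMem m1, card_insert_of_notMem m2, card_pair (hneq b hb3)]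
  set α := (2 * B.card + 1) • (a + b) with hα
  set β := (2 * B.card + 1) • (a - b) with hβ
  have hab : α + β = a := by
    have : α + β = (2 * B.card + 1) • (a + a) := by
      rw [hα, hβ, ← nsmul_add]; congr 1; abel
    rw [this]
    exact (half_mem hcard a).symm
  have hab' : α - β = b := by
    have : α - β = (2 * B.card + 1) • (b + b) := by
      rw [hα, hβ, ← nsmul_sub]; congr 1; abel
    rw [this]
    exact (half_mem hcard b).symm
  have hβ0 : β ≠ 0 := by
    intro h
    apply hb2
    rw [h, add_zero] at hab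
    rw [h, sub_zero] at hab'
    rw [← hab, ← hab']
  have hAeq' : A = {w + (α + β), w - (α + β), w + (α - β), w - (α - β)} := by
    rw [hab, hab']; exact hAeq
  obtain ⟨h4, hA5⟩ := four_end hAeq' hAc H hB hβ0 hcov
  have h17 : Fintype.card Γ = 17 := by rw [hcard, h4]
  obtain ⟨φ, hφ⟩ := gen_equiv' (four_gen hAeq' hAc H) h17
  refine ⟨φ, fun x => ?_⟩
  have hα9 : α = φ 9 := by
    apply double_inj hcard
    rw [← map_add]
    have : (9 + 9 : ZMod 17) = 1 := by decide
    rw [this, hφ]
  have hA6 : A = ({6, 7, 10, 11} : Finset (ZMod 17)).image (fun y => w + φ y) := by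
    rw [hA5, hα9, ← map_nsmul, ← map_nsmul]
    have e1 : (5 • (9 : ZMod 17)) = 11 := by decide
    have e2 : (3 • (9 : ZMod 17)) = 10 := by decide
    rw [e1, e2]
    have e3 : w - φ 11 = w + φ 6 := by
      rw [sub_eq_add_neg, ← map_neg]; congr 2
    have e4 : w - φ 10 = w + φ 7 := by
      rw [sub_eq_add_neg, ← map_neg]; congr 2
    rw [e3, e4]
    ext z
    simp only [mem_insert, mem_singleton, image_insert, image_singleton]
    tauto
  rw [← diffs17, hA6]
  exact diffs_image _ φ w x

end Pool.Agent.H51.PG
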