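import Pool.Agent.H51.PG.Bound

/-! Partitionable Cayley graphs of abelian groups and near factorisations. -/

namespace Pool.Agent.H51.PG

open Finset

/-- `G` is partitionable with parameters `p`, `q`: it has `pq+1` vertices, `p, q ≥ 2`, and for
every vertex `v` the other vertices can be partitioned into `p` cliques of size `q` and also
into `q` stable sets of size `p`. -/
def Partitionable {V : Type*} [Fintype V] (G : SimpleGraph V) (p q : ℕ) : Prop :=
  2 ≤ p ∧ 2 ≤ q ∧ Fintype.card V = p * q + 1 ∧ ∀ v : V,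
    (∃ C : Fin p → Finset V, (∀ i, G.IsNClique q (C i) ∧ v ∉ C i) ∧ ∀ x, x ≠ v → ∃! i, x ∈ C i) ∧
    (∃ S : Fin q → Finset V, (∀ j, G.IsNIndepSet p (S j) ∧ v ∉ S j) ∧ ∀ x, x ≠ v → ∃! j, x ∈ S j)

/-- the no-weak-pair property -/
def NoWeakPair {V : Type*} [Fintype V] (G : SimpleGraph V) : Prop :=
  ∀ u v : V, u ≠ v →
    (∃ K : Finset V, G.IsMaximumClique K ∧ u ∈ K ∧ v ∈ K) ∨
    (∃ S : Finset V, G.IsMaximumIndepSet S ∧ u ∈ S ∧ v ∈ S)

variable {Γ : Type*} [AddCommGroup Γ] [Fintype Γ] [DecidableEq Γ]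

theorem diffs_eq_of_translate {X X' : Finset Γ} {t : Γ} (h : ∀ x, x ∈ X' ↔ x - t ∈ X) :
    diffs X' = diffs X := by
  ext g
  rw [mem_diffs, mem_diffs]
  constructor
  · rintro ⟨h0, x, hx, y, hy, he⟩
    exact ⟨h0, x - t, (h x).mp hx, y - t, (h y).mp hy, by rw [← he]; abel⟩
  · rintro ⟨h0, x, hx, y, hy, he⟩
    refine ⟨h0, x + t, (h _).mpr ?_, y + t, (h _).mpr ?_, by rw [← he]; abel⟩
    · rwa [add_sub_cancel_right]
    · rwa [add_sub_cancel_right]

theorem diffs_neg (X : Finset Γ) : diffs (X.image (fun s => -s)) = diffs X := by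
  ext g
  rw [mem_diffs, mem_diffs]
  constructor
  · rintro ⟨h0, x, hx, y, hy, he⟩
    obtain ⟨a, ha, rfl⟩ := mem_image.mp hx
    obtain ⟨b, hb, rfl⟩ := mem_image.mp hy
    exact ⟨h0, b, hb, a, ha, by rw [← he]; abel⟩
  · rintro ⟨h0, x, hx, y, hy, he⟩
    exact ⟨h0, -y, mem_image_of_mem _ hy, -x, mem_image_of_mem _ hx, by rw [← he]; abel⟩

theorem inj_of_clique {G : SimpleGraph Γ} (hinv : ∀ g x y, G.Adj x y → G.Adj (g + x) (g + y))
    {K S : Finset Γ} (hK : G.IsClique (K : Set Γ)) (hS : G.IsIndepSet (S : Set Γ)) :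
    ∀ x ∈ K, ∀ y ∈ S.image (fun s => -s), ∀ x' ∈ K, ∀ y' ∈ S.image (fun s => -s),
      x + y = x' + y' → x = x' ∧ y = y' := by
  intro k hk y hy k' hk' y' hy' he
  obtain ⟨s, hs, rfl⟩ := mem_image.mp hy
  obtain ⟨s', hs', rfl⟩ := mem_image.mp hy'
  have hkk : k = k' := by
    by_contra hne
    have h1 := hinv (s' - k') k k' (hK hk hk' hne)
    have h2 : s' - k' + k = s := by
      have : s' - k' + k = (k + -s) - (k' + -s') + s := by abel
      rw [this, he]; abel
    have h3 : s' - k' + k' = s' := by abel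
    rw [h2, h3] at h1
    exact hS hs hs' h1.ne h1
  refine ⟨hkk, ?_⟩
  rw [hkk] at he
  exact add_left_cancel he

theorem card_neg (S : Finset Γ) : (S.image (fun s => -s)).card = S.card :=
  card_image_of_injective _ neg_injective

/-- a partitionable Cayley graph without weak pairs comes from a near factorisation -/
theorem setup {G : SimpleGraph Γ} (hinv : ∀ g x y, G.Adj x y → G.Adj (g + x) (g + y))
    {p q : ℕ} (hp : Partitionable G p q) (hw : NoWeakPair G) :
    ∃ A B : Finset Γ, A.card = q ∧ B.card = p ∧ NF A B 0 ∧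
      (∀ u v, G.Adj u v ↔ u - v ∈ diffs A) ∧ ∀ x, x ≠ 0 → x ∈ diffs A ∨ x ∈ diffs B := by
  obtain ⟨hp2, hq2, hcard, hpart⟩ := hp
  obtain ⟨⟨C, hC, -⟩, ⟨D, hD, -⟩⟩ := hpart 0
  obtain ⟨K, hK⟩ : ∃ K, G.IsNClique q K := ⟨C ⟨0, by omega⟩, (hC _).1⟩
  obtain ⟨S, hS⟩ : ∃ S, G.IsNIndepSet p S := ⟨D ⟨0, by omega⟩, (hD _).1⟩
  have hKc := hK.card_eq
  have hSc := hS.card_eq
  -- sizes of maximum cliques and stable sets
  have hmaxK : ∀ K' : Finset Γ, G.IsMaximumClique K' → K'.card = q := by
    intro K' hK'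
    have h1 : q ≤ K'.card := hKc ▸ hK'.maximum K hK.isClique
    have h2 := rep_le_one_of_inj (inj_of_clique hinv hK'.isClique hS.isIndepSet)
    have h3 := sum_rep K' (S.image (fun s => -s))
    have h4 : ∑ g, rep K' (S.image (fun s => -s)) g ≤ ∑ g : Γ, 1 := sum_le_sum (fun g _ => h2 g)
    rw [h3, card_neg, hSc, sum_const, card_univ, hcard, smul_eq_mul, mul_one] at h4
    by_contra hne
    have h5 : q + 1 ≤ K'.card := by omega
    nlinarith [Nat.mul_le_mul_right p h5]
  have hmaxS : ∀ S' : Finset Γ, G.IsMaximumIndepSet S' → S'.card = p := by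
    intro S' hS'
    have h1 : p ≤ S'.card := hSc ▸ hS'.maximum S hS.isIndepSet
    have h2 := rep_le_one_of_inj (inj_of_clique hinv hK.isClique hS'.isIndepSet)
    have h3 := sum_rep K (S'.image (fun s => -s))
    have h4 : ∑ g, rep K (S'.image (fun s => -s)) g ≤ ∑ g : Γ, 1 := sum_le_sum (fun g _ => h2 g)
    rw [h3, card_neg, hKc, sum_const, card_univ, hcard, smul_eq_mul, mul_one] at h4
    by_contra hne
    have h5 : p + 1 ≤ S'.card := by omega
    nlinarith [Nat.mul_le_mul_left q h5]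
  have hcard' : Fintype.card Γ = q * p + 1 := by rw [hcard]; ring
  have hKne : K.Nonempty := card_pos.mp (by omega)
  have hSne : (S.image (fun s => -s)).Nonempty := card_pos.mp (by rw [card_neg]; omega)
  obtain ⟨m, hm⟩ := exists_hole (inj_of_clique hinv hK.isClique hS.isIndepSet)
    (by rw [card_neg, hKc, hSc]; exact hcard')
  have hdK : ∀ K' : Finset Γ, G.IsMaximumClique K' → diffs K' = diffs K := by
    intro K' hK'
    obtain ⟨m', hm'⟩ := exists_hole (inj_of_clique hinv hK'.isClique hS.isIndepSet)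
      (by rw [card_neg, hmaxK K' hK', hSc]; exact hcard')
    exact diffs_eq_of_translate (hm.uniq hm' hSne)
  have hdS : ∀ S' : Finset Γ, G.IsMaximumIndepSet S' → diffs S' = diffs S := by
    intro S' hS'
    obtain ⟨m', hm'⟩ := exists_hole (inj_of_clique hinv hK.isClique hS'.isIndepSet)
      (by rw [card_neg, hmaxS S' hS', hKc]; exact hcard')
    rw [← diffs_neg S', ← diffs_neg S]
    exact diffs_eq_of_translate (hm.comm.uniq hm'.comm hKne)
  -- the translate with hole 0
  have htr : ∀ x, x ∈ K.image (fun k => k - m) ↔ x - (-m) ∈ K := by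
    intro x
    rw [mem_image]
    constructor
    · rintro ⟨k, hk, rfl⟩
      have : k - m - -m = k := by abel
      rw [this]; exact hk
    · intro hx
      exact ⟨_, hx, by abel⟩
  have hdA : diffs (K.image (fun k => k - m)) = diffs K := diffs_eq_of_translate htr
  have hAc : (K.image (fun k => k - m)).card = K.card :=
    card_image_of_injective _ (sub_left_injective)
  have hNF : NF (K.image (fun k => k - m)) (S.image (fun s => -s)) 0 := by
    intro g
    have h1 : rep (K.image (fun k => k - m)) (S.image (fun s => -s)) g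
        = rep K (S.image (fun s => -s)) (g + m) := by
      unfold rep
      refine card_bij (fun z _ => (z.1 + m, z.2)) ?_ ?_ ?_
      · rintro ⟨a, b⟩ hz
        simp only [mem_filter, mem_product] at hz ⊢
        refine ⟨⟨?_, hz.1.2⟩, ?_⟩
        · have := (htr a).mp hz.1.1
          rwa [sub_neg_eq_add] at this
        · rw [← hz.2]; abel
      · rintro ⟨a, b⟩ _ ⟨c, d⟩ _ h
        simp only [Prod.mk.injEq] at h ⊢
        exact ⟨add_right_cancel h.1, h.2⟩
      · rintro ⟨a, b⟩ hz
        simp only [mem_filter, mem_product] at hz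
        refine ⟨(a - m, b), ?_, by simp⟩
        simp only [mem_filter, mem_product]
        refine ⟨⟨mem_image_of_mem _ hz.1.1, hz.1.2⟩, ?_⟩
        have : a - m + b = a + b - m := by abel
        rw [this, hz.2]; abel
    rw [h1, hm (g + m)]
    by_cases hg : g = 0
    · simp [hg]
    · rw [if_neg hg, if_neg (by simpa using hg)]
  refine ⟨K.image (fun k => k - m), S.image (fun s => -s), by rw [hAc, hKc], by rw [card_neg, hSc],
    hNF, ?_, ?_⟩
  · intro u v
    rw [hdA, mem_diffs]
    constructor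
    · intro h
      refine ⟨sub_ne_zero.mpr h.ne, ?_⟩
      rcases hw u v h.ne with ⟨K', hK', hu, hv⟩ | ⟨S', hS', hu, hv⟩
      · have h1 : u - v ∈ diffs K' := mem_diffs.mpr ⟨sub_ne_zero.mpr h.ne, u, hu, v, hv, rfl⟩
        rw [hdK K' hK', mem_diffs] at h1
        exact h1.2
      · exact absurd h (hS'.isIndepSet hu hv h.ne)
    · rintro ⟨h0, x, hx, y, hy, he⟩
      have hxy : x ≠ y := by
        intro h; rw [h, sub_self] at he; exact h0 he.symm
      have h1 := hinv (v - y) x y (hK.isClique hx hy hxy)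
      have h2 : v - y + x = u := by
        have : v - y + x = (x - y) + v := by abel
        rw [this, he]; abel
      have h3 : v - y + y = v := by abel
      rwa [h2, h3] at h1
  · intro x hx
    rw [hdA, diffs_neg]
    rcases hw x 0 hx with ⟨K', hK', hu, hv⟩ | ⟨S', hS', hu, hv⟩
    · left
      rw [← hdK K' hK']
      exact mem_diffs.mpr ⟨hx, x, hu, 0, hv, sub_zero x⟩
    · right
      rw [← hdS S' hS']
      exact mem_diffs.mpr ⟨hx, x, hu, 0, hv, sub_zero x⟩

end Pool.Agent.H51.PG
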