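import Pool.Agent.H51.PG.Odd

/-! One factor much smaller than the group: a small character and an extremal argument. -/

namespace Pool.Agent.H51.PG

open Finset

variable {Γ : Type*} [AddCommGroup Γ] [Fintype Γ] [DecidableEq Γ]

theorem exists_hom_of_char (ψ : AddChar Γ ℂ) {n : ℕ} [NeZero n] (hn : Fintype.card Γ = n) :
    ∃ f : Γ →+ ZMod n, ∀ g, ZMod.stdAddChar (f g) = ψ g := by
  have h1 : ∀ g, ∃ k : ZMod n, ZMod.stdAddChar k = ψ g := by
    intro g
    have h2 : (ψ g) ^ n = 1 := by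
      rw [← AddChar.map_nsmul_eq_pow, ← hn, card_nsmul_eq_zero, AddChar.map_zero_eq_one]
    have h3 : IsUnit (ψ g) := IsUnit.of_pow_eq_one h2 (NeZero.ne n)
    obtain ⟨u, hu⟩ := h3
    have h4 : u ∈ rootsOfUnity n ℂ := by
      rw [mem_rootsOfUnity, Units.ext_iff, Units.val_pow_eq_pow_val, hu, h2, Units.val_one]
    rw [Complex.mem_rootsOfUnity] at h4
    obtain ⟨i, -, hi⟩ := h4
    refine ⟨((i : ℤ) : ZMod n), ?_⟩
    rw [ZMod.stdAddChar_coe, ← hu, ← hi]
    congr 1
    push_cast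
    ring
  choose k hk using h1
  refine ⟨AddMonoidHom.mk' k (fun a b => ?_), hk⟩
  apply ZMod.injective_stdAddChar
  rw [hk, AddChar.map_add_eq_mul, AddChar.map_add_eq_mul, hk, hk]

/-- pigeonhole: a nonzero homomorphism which is small on `S` -/
theorem rect (S : Finset Γ) (hS : 6 ^ S.card < Fintype.card Γ) :
    ∃ f : Γ →+ ZMod (Fintype.card Γ), f ≠ 0 ∧
      ∀ a ∈ S, ∃ z : ℤ, 6 * |z| < Fintype.card Γ ∧ f a = z := by
  haveI : NeZero (Fintype.card Γ) := ⟨Fintype.card_ne_zero⟩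
  have hex := fun ψ : AddChar Γ ℂ => exists_hom_of_char ψ (rfl : Fintype.card Γ = Fintype.card Γ)
  choose F hF using hex
  have hlt : ∀ ψ : AddChar Γ ℂ, ∀ a : S, 6 * (F ψ a).val / Fintype.card Γ < 6 := by
    intro ψ a
    rw [Nat.div_lt_iff_lt_mul (Nat.pos_of_ne_zero Fintype.card_ne_zero)]
    have := ZMod.val_lt (F ψ a)
    omega
  obtain ⟨ψ1, ψ2, hne, heq⟩ := Fintype.exists_ne_map_eq_of_card_lt
    (fun ψ : AddChar Γ ℂ => (fun a : S => (⟨6 * (F ψ a).val / Fintype.card Γ, hlt ψ a⟩ : Fin 6)))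
    (by
      rw [AddChar.card_eq, Fintype.card_fun, Fintype.card_fin, Fintype.card_coe]
      exact hS)
  refine ⟨F ψ1 - F ψ2, ?_, ?_⟩
  · intro h
    apply hne
    have h1 : F ψ1 = F ψ2 := sub_eq_zero.mp h
    ext g
    rw [← hF ψ1 g, ← hF ψ2 g, h1]
  · intro a ha
    have h1 := congrFun heq ⟨a, ha⟩
    simp only [Fin.mk.injEq] at h1
    refine ⟨((F ψ1 a).val : ℤ) - (F ψ2 a).val, ?_, ?_⟩
    · have e1 := Nat.div_add_mod (6 * (F ψ1 a).val) (Fintype.card Γ)
      have e2 := Nat.div_add_mod (6 * (F ψ2 a).val) (Fintype.card Γ)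
      have l1 := Nat.mod_lt (6 * (F ψ1 a).val) (Nat.pos_of_ne_zero (Fintype.card_ne_zero (α := Γ)))
      have l2 := Nat.mod_lt (6 * (F ψ2 a).val) (Nat.pos_of_ne_zero (Fintype.card_ne_zero (α := Γ)))
      rw [h1] at e1
      rcases abs_cases (((F ψ1 a).val : ℤ) - (F ψ2 a).val) with ⟨hh, _⟩ | ⟨hh, _⟩ <;> rw [hh] <;> omega
    · rw [AddMonoidHom.sub_apply]
      push_cast
      rw [ZMod.natCast_zmod_val, ZMod.natCast_zmod_val]

theorem lift_unique {n : ℕ} {x y : ℤ} (h : (x : ZMod n) = y) (hlt : |x - y| < n) : x = y := by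
  rw [ZMod.intCast_eq_intCast_iff_dvd_sub] at h
  have h1 : (n : ℤ) ∣ x - y := by
    have := dvd_neg.mpr h
    rwa [neg_sub] at this
  have := Int.eq_zero_of_abs_lt_dvd h1 hlt
  omega

theorem half (A : Finset Γ) (hsym : ∀ x, x ∈ A ↔ -x ∈ A) :
    ∃ S : Finset Γ, 2 * S.card ≤ A.card ∧ ∀ a ∈ A, a = -a ∨ a ∈ S ∨ -a ∈ S := by
  set e := Fintype.equivFin Γ
  refine ⟨A.filter (fun a => e a < e (-a)), ?_, ?_⟩
  · have h1 : Disjoint (A.filter (fun a => e a < e (-a)))
        ((A.filter (fun a => e a < e (-a))).image (fun a => -a)) := by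
      rw [disjoint_left]
      intro z hz hz'
      obtain ⟨b, hb, rfl⟩ := mem_image.mp hz'
      rw [mem_filter] at hz hb
      rw [neg_neg] at hz
      exact absurd (hz.2.trans hb.2) (lt_irrefl _)
    have h2 : (A.filter (fun a => e a < e (-a))) ∪
        ((A.filter (fun a => e a < e (-a))).image (fun a => -a)) ⊆ A := by
      apply union_subset (filter_subset _ _)
      intro z hz
      obtain ⟨b, hb, rfl⟩ := mem_image.mp hz
      exact (hsym b).mp (mem_filter.mp hb).1
    have h3 := card_le_card h2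
    rw [card_union_of_disjoint h1, card_image_of_injective _ neg_injective] at h3
    omega
  · intro a ha
    rcases lt_trichotomy (e a) (e (-a)) with h | h | h
    · right; left; exact mem_filter.mpr ⟨ha, h⟩
    · left; exact e.injective h
    · right; right
      exact mem_filter.mpr ⟨(hsym a).mp ha, by rw [neg_neg]; exact h⟩

theorem rectA {A : Finset Γ} (hsym : ∀ x, x ∈ A ↔ -x ∈ A) (h0 : ∀ a ∈ A, a = -a → a = 0)
    (hn : 6 ^ (A.card / 2) < Fintype.card Γ) :
    ∃ f : Γ →+ ZMod (Fintype.card Γ), f ≠ 0 ∧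
      ∀ a ∈ A, ∃ z : ℤ, 6 * |z| < Fintype.card Γ ∧ f a = z := by
  obtain ⟨S, hS1, hS2⟩ := half A hsym
  have h1 : 6 ^ S.card < Fintype.card Γ :=
    lt_of_le_of_lt (Nat.pow_le_pow_right (by norm_num) (by omega)) hn
  obtain ⟨f, hf, hfS⟩ := rect S h1
  refine ⟨f, hf, fun a ha => ?_⟩
  rcases hS2 a ha with h | h | h
  · refine ⟨0, ?_, ?_⟩
    · have : 0 < Fintype.card Γ := Nat.pos_of_ne_zero Fintype.card_ne_zero
      simpa using this
    · rw [h0 a ha h, map_zero]; simp
  · exact hfS a h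
  · obtain ⟨z, hz, hz'⟩ := hfS (-a) h
    refine ⟨-z, by rw [abs_neg]; exact hz, ?_⟩
    rw [map_neg] at hz'
    push_cast
    rw [← hz', neg_neg]

theorem gen_zero {A B : Finset Γ} (H : NF A B 0) (hA : 2 ≤ A.card) {n : ℕ} (f : Γ →+ ZMod n)
    (h : ∀ a ∈ A, f a = 0) : f = 0 := by
  by_contra hne
  obtain ⟨z, hz⟩ : ∃ z, f z ≠ 0 := by
    by_contra hn
    push Not at hn
    exact hne (AddMonoidHom.ext hn)
  have key : ∀ t, ∑ g ∈ univ.filter (fun g => f g = t), rep A B g
      = A.card * (B.filter (fun b => f b = t)).card := by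
    intro t
    have h1 := card_eq_sum_card_fiberwise (f := fun z : Γ × Γ => z.1 + z.2)
      (s := A ×ˢ (B.filter (fun b => f b = t))) (t := univ.filter (fun g => f g = t)) (by
        rintro ⟨a, b⟩ hab
        simp only [coe_product, Set.mem_prod, mem_coe, mem_filter] at hab
        simp only [coe_filter, mem_univ, true_and, Set.mem_setOf_eq, map_add]
        rw [h a hab.1, hab.2.2, zero_add])
    rw [card_product] at h1
    rw [h1]
    refine sum_congr rfl (fun g hg => ?_)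
    unfold rep
    congr 1
    ext ⟨a, b⟩
    simp only [mem_filter, mem_product, mem_univ, true_and] at hg ⊢
    constructor
    · rintro ⟨⟨ha, hb⟩, he⟩
      refine ⟨⟨ha, hb, ?_⟩, he⟩
      rw [← he, map_add, h a ha, zero_add] at hg
      exact hg
    · rintro ⟨⟨ha, hb, _⟩, he⟩
      exact ⟨⟨ha, hb⟩, he⟩
  have h1 := key (f z)
  have h2 := key 0
  have e1 : ∑ g ∈ univ.filter (fun g => f g = f z), rep A B g
      = (univ.filter (fun g => f g = f z)).card := by
    rw [card_eq_sum_ones]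
    refine sum_congr rfl (fun g hg => ?_)
    rw [H g, if_neg]
    rintro rfl
    rw [mem_filter, map_zero] at hg
    exact hz hg.2.symm
  have e2 : ∑ g ∈ univ.filter (fun g => f g = 0), rep A B g + 1
      = (univ.filter (fun g => f g = 0)).card := by
    have h0 : (0 : Γ) ∈ univ.filter (fun g => f g = 0) := by simp
    rw [← sum_erase_add _ _ h0, H 0, if_pos rfl, add_zero, ← card_erase_add_one h0,
      card_eq_sum_ones ((univ.filter (fun g => f g = 0)).erase 0)]
    congr 1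
    refine sum_congr rfl (fun g hg => ?_)
    rw [H g, if_neg (mem_erase.mp hg).1]
  have e3 : (univ.filter (fun g => f g = f z)).card = (univ.filter (fun g => f g = 0)).card := by
    refine card_bij (fun g _ => g - z) ?_ ?_ ?_
    · intro g hg
      simp only [mem_filter, mem_univ, true_and] at hg ⊢
      rw [map_sub, hg, sub_self]
    · intro a _ b _ hab
      exact sub_left_injective hab
    · intro g hg
      simp only [mem_filter, mem_univ, true_and] at hg
      refine ⟨g + z, ?_, by simp⟩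
      simp only [mem_filter, mem_univ, true_and, map_add, hg, zero_add]
  have h3 : A.card * (B.filter (fun b => f b = 0)).card + 1
      = A.card * (B.filter (fun b => f b = f z)).card := by
    rw [← h1, ← h2, e1, e2, e3]
  have h4 : A.card ∣ 1 := by
    have d1 : A.card ∣ A.card * (B.filter (fun b => f b = 0)).card + 1 := by
      rw [h3]; exact Dvd.intro _ rfl
    exact (Nat.dvd_add_right (Dvd.intro _ rfl)).mp d1
  have := Nat.le_of_dvd one_pos h4
  omega

/-- symmetry about zero after a translation -/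
theorem normalize {A B : Finset Γ} {c w : Γ} (hc : ∀ x, x ∈ A ↔ c - x ∈ A) (hw : w + w = c)
    (H : NF A B 0) (hA : A.Nonempty) :
    ∃ A' B' : Finset Γ, A'.card = A.card ∧ B'.card = B.card ∧ diffs A' = diffs A ∧
      diffs B' = diffs B ∧ NF A' B' 0 ∧ (∀ x, x ∈ A' ↔ -x ∈ A') ∧ (∀ x, x ∈ B' ↔ -x ∈ B') ∧
      ∀ x, x ∈ A' ↔ x + w ∈ A := by
  have hmA : ∀ x, x ∈ A.image (fun a => a - w) ↔ x + w ∈ A := by
    intro x
    rw [mem_image]
    constructor
    · rintro ⟨a, ha, rfl⟩; rwa [sub_add_cancel]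
    · intro h; exact ⟨x + w, h, by abel⟩
  have hmB : ∀ x, x ∈ B.image (fun b => b + w) ↔ x - w ∈ B := by
    intro x
    rw [mem_image]
    constructor
    · rintro ⟨a, ha, rfl⟩; rwa [add_sub_cancel_right]
    · intro h; exact ⟨x - w, h, by abel⟩
  have hNF : NF (A.image (fun a => a - w)) (B.image (fun b => b + w)) 0 := by
    intro g
    rw [← H g]
    unfold rep
    refine card_bij (fun z _ => (z.1 + w, z.2 - w)) ?_ ?_ ?_
    · rintro ⟨a, b⟩ hz
      simp only [mem_filter, mem_product] at hz ⊢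
      refine ⟨⟨(hmA a).mp hz.1.1, (hmB b).mp hz.1.2⟩, ?_⟩
      rw [← hz.2]; abel
    · rintro ⟨a, b⟩ _ ⟨c, d⟩ _ h
      simp only [Prod.mk.injEq] at h ⊢
      exact ⟨add_right_cancel h.1, sub_left_injective h.2⟩
    · rintro ⟨a, b⟩ hz
      simp only [mem_filter, mem_product] at hz
      refine ⟨(a - w, b + w), ?_, by simp⟩
      simp only [mem_filter, mem_product]
      refine ⟨⟨mem_image_of_mem _ hz.1.1, mem_image_of_mem _ hz.1.2⟩, ?_⟩
      rw [← hz.2]; abel
  have hsA : ∀ x, x ∈ A.image (fun a => a - w) ↔ -x ∈ A.image (fun a => a - w) := by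
    intro x
    rw [hmA, hmA, hc]
    have : c - (x + w) = -x + w := by rw [← hw]; abel
    rw [this]
  refine ⟨A.image (fun a => a - w), B.image (fun b => b + w),
    card_image_of_injective _ sub_left_injective, card_image_of_injective _ (add_left_injective w),
    diffs_eq_of_translate (t := -w) (fun x => by rw [hmA, sub_neg_eq_add]),
    diffs_eq_of_translate (t := w) hmB, hNF, hsA, ?_, hmA⟩
  -- symmetry of B'
  have hneg : NF ((B.image (fun b => b + w)).image (fun b => -b)) (A.image (fun a => a - w)) 0 := by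
    intro g
    have h1 : rep ((B.image (fun b => b + w)).image (fun b => -b)) (A.image (fun a => a - w)) g
        = rep (A.image (fun a => a - w)) (B.image (fun b => b + w)) (-g) := by
      unfold rep
      refine card_bij (fun z _ => (-z.2, -z.1)) ?_ ?_ ?_
      · rintro ⟨a, b⟩ hz
        simp only [mem_filter, mem_product] at hz ⊢
        obtain ⟨⟨h1, h2⟩, h3⟩ := hz
        obtain ⟨b', hb', rfl⟩ := mem_image.mp h1
        refine ⟨⟨(hsA _).mp h2, by rwa [neg_neg]⟩, ?_⟩
        rw [← h3]; abel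
      · rintro ⟨a, b⟩ _ ⟨c, d⟩ _ h
        simp only [Prod.mk.injEq, neg_inj] at h ⊢
        exact ⟨h.2, h.1⟩
      · rintro ⟨a, b⟩ hz
        simp only [mem_filter, mem_product] at hz
        refine ⟨(-b, -a), ?_, by simp⟩
        simp only [mem_filter, mem_product]
        refine ⟨⟨mem_image_of_mem _ hz.1.2, (hsA _).mp hz.1.1⟩, ?_⟩
        have : -b + -a = -(a + b) := by abel
        rw [this, hz.2, neg_neg]
    rw [h1, hNF (-g)]
    simp only [neg_eq_zero]
  intro x
  have h1 := hNF.comm.uniq hneg (by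
    rw [image_nonempty]; exact hA) (-x)
  rw [sub_zero, sub_zero, mem_image] at h1
  constructor
  · intro hx; exact h1.mp ⟨x, hx, rfl⟩
  · intro hx
    obtain ⟨b, hb, hbx⟩ := h1.mpr hx
    rw [neg_inj] at hbx
    rw [← hbx]; exact hb

/-- structure of collisions `2x+y = 2x'+y'` when `|X|` is odd -/
structure OddData (X Y : Finset Γ) : Prop where
  nf : NF X Y 0
  symX : ∀ x, x ∈ X ↔ -x ∈ X
  symY : ∀ x, x ∈ Y ↔ -x ∈ Y
  odd : Odd X.card
  two : 2 ≤ Y.card
  zero : (0 : Γ) ∈ X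

theorem OddData.off {X Y : Finset Γ} (D : OddData X Y) {g : Γ} (hg : g ∉ X) : rep2 X Y g = 1 := by
  have hc : ∀ x, x ∈ X ↔ 0 - x ∈ X := by
    intro x; rw [zero_sub]; exact D.symX x
  have h1 := sum_off hc D.nf D.odd
  rw [fixc_one hc D.nf D.odd D.two] at h1
  have h2 : rep2 X Y g - 1 ≤ ∑ g ∈ univ \ X, (rep2 X Y g - 1) :=
    single_le_sum (f := fun g => rep2 X Y g - 1) (fun _ _ => Nat.zero_le _)
      (mem_sdiff.mpr ⟨mem_univ g, hg⟩)
  have h3 := rep2_off D.nf D.odd hg
  omega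

theorem OddData.mem_of_coll {X Y : Finset Γ} (D : OddData X Y) {x x' y y' : Γ} (hx : x ∈ X)
    (hx' : x' ∈ X) (hy : y ∈ Y) (hy' : y' ∈ Y) (hne : x ≠ x') (h : x + x + y = x' + x' + y') :
    x + x + y ∈ X := by
  by_contra hg
  have h1 := D.off hg
  have h2 : ind Y (x + x + y - (x + x)) + ind Y (x + x + y - (x' + x')) ≤ rep2 X Y (x + x + y) := by
    unfold rep2
    rw [← sum_pair (f := fun a => ind Y (x + x + y - (a + a))) hne]
    apply sum_le_sum_of_subset
    intro z hz
    rw [mem_insert, mem_singleton] at hz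
    rcases hz with rfl | rfl
    · exact hx
    · exact hx'
  have e1 : x + x + y - (x + x) = y := by abel
  have e2 : x + x + y - (x' + x') = y' := by rw [h]; abel
  rw [e1, e2, ind, ind, if_pos hy, if_pos hy', h1] at h2
  omega

theorem OddData.uniq {X Y : Finset Γ} (D : OddData X Y) {x y y' : Γ} (hy : y ∈ Y)
    (hy' : y' ∈ Y) (h : x + x + y ∈ X) (h' : x + x + y' ∈ X) : y = y' := by
  obtain ⟨_, h2⟩ := D.nf.inj _ h _ ((D.symY y).mp hy) _ h' _ ((D.symY y').mp hy') (by abel)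
  exact neg_injective h2

theorem OddData.double {X Y : Finset Γ} (D : OddData X Y) {x x' : Γ} (hx : x ∈ X)
    (hx' : x' ∈ X) (h : x + x = x' + x') : x = x' := by
  by_contra hne
  obtain ⟨y, hy, y', hy', hyy⟩ := one_lt_card.mp (show 1 < Y.card by have := D.two; omega)
  have h1 := D.mem_of_coll hx hx' hy hy hne (by rw [h])
  have h2 := D.mem_of_coll hx hx' hy' hy' hne (by rw [h])
  exact hyy (D.uniq hy hy' h1 h2)

theorem OddData.coll {X Y : Finset Γ} (D : OddData X Y) {x x' y y' : Γ} (hx : x ∈ X)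
    (hx' : x' ∈ X) (hy : y ∈ Y) (hy' : y' ∈ Y) (hne : x ≠ x') (h : x + x + y = x' + x' + y') :
    y' = -y := by
  have h1 := D.mem_of_coll hx hx' hy hy' hne h
  have h2 := D.mem_of_coll hx hx' ((D.symY y').mp hy') ((D.symY y).mp hy) hne (by
    have : x + x + -y' = (x + x + y) - y - y' := by abel
    rw [this, h]; abel)
  have h3 := D.uniq hy ((D.symY y').mp hy') h1 h2
  rw [h3, neg_neg]

theorem OddData.unique {X Y : Finset Γ} (D : OddData X Y) {x x' x'' : Γ} (hx : x ∈ X)
    (hx' : x' ∈ X) (hx'' : x'' ∈ X) (hne : x ≠ x') (hne' : x ≠ x'')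
    (h : x + x - (x' + x') ∈ diffs Y) (h' : x + x - (x'' + x'') ∈ diffs Y) : x' = x'' := by
  rw [mem_diffs] at h h'
  obtain ⟨_, y1, hy1, y, hy, he⟩ := h
  obtain ⟨_, z1, hz1, z, hz, he'⟩ := h'
  have c1 : x + x + y = x' + x' + y1 := by
    have : x + x + y = (x + x - (x' + x')) + (x' + x') + y := by abel
    rw [this, ← he]; abel
  have c2 : x + x + z = x'' + x'' + z1 := by
    have : x + x + z = (x + x - (x'' + x'')) + (x'' + x'') + z := by abel
    rw [this, ← he']; abel
  have m1 := D.mem_of_coll hx hx' hy hy1 hne c1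
  have m2 := D.mem_of_coll hx hx'' hz hz1 hne' c2
  have e1 := D.uniq hy hz m1 m2
  have e2 := D.coll hx hx' hy hy1 hne c1
  have e3 := D.coll hx hx'' hz hz1 hne' c2
  apply D.double hx' hx''
  rw [e2] at c1
  rw [e3, ← e1] at c2
  exact add_right_cancel (c1.symm.trans c2)

/-- first case: the small factor is odd -/
theorem large_odd {A B : Finset Γ} (D : OddData A B) (h5 : 5 ≤ A.card)
    (hn : 6 ^ (A.card / 2) < Fintype.card Γ)
    (hcov : ∀ x, x ≠ 0 → x ∈ diffs A ∨ x ∈ diffs B) : False := by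
  obtain ⟨f, hf, hfA⟩ := rectA D.symX (by
    intro a ha h
    apply D.double ha D.zero
    nth_rw 1 [h]; abel) hn
  choose! Z hZ hfZ using hfA
  have hneg : ∀ a ∈ A, Z (-a) = -Z a := by
    intro a ha
    have h1 := hZ a ha
    have h2 := hZ (-a) ((D.symX a).mp ha)
    apply lift_unique (n := Fintype.card Γ)
    · rw [← hfZ _ ((D.symX a).mp ha), map_neg, hfZ a ha]; push_cast; rfl
    · rw [sub_neg_eq_add]
      have := abs_add_le (Z (-a)) (Z a)
      omega
  obtain ⟨a1, ha1, hZ1⟩ : ∃ a ∈ A, Z a ≠ 0 := by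
    by_contra hn'
    push Not at hn'
    apply hf
    apply gen_zero D.nf (by omega) f
    intro a ha
    rw [hfZ a ha, hn' a ha]; simp
  obtain ⟨a0, ha0, hmax⟩ := exists_max_image A Z ⟨a1, ha1⟩
  have hmin : ∀ a ∈ A, -Z a0 ≤ Z a := by
    intro a ha
    have := hmax (-a) ((D.symX a).mp ha)
    rw [hneg a ha] at this
    omega
  have hM : 0 < Z a0 := by
    have h1 := hmax a1 ha1
    have h2 := hmin a1 ha1
    omega
  have hna0 : -a0 ∈ A := (D.symX a0).mp ha0
  have hZn : Z (-a0) = -Z a0 := hneg a0 ha0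
  have hne0 : a0 ≠ -a0 := by
    intro h
    rw [← h] at hZn
    omega
  -- the key relation
  have key : ∀ a ∈ A, a ≠ a0 → a0 + a0 - (a + a) ∉ diffs B →
      ∃ a3 ∈ A, ∃ a4 ∈ A, a3 - a4 = a0 + a0 - (a + a) ∧ 2 * (Z a0 - Z a) = Z a3 - Z a4 := by
    intro a ha hne hnB
    have h0 : a0 + a0 - (a + a) ≠ 0 := by
      intro h
      exact hne (D.double ha ha0 (sub_eq_zero.mp h).symm)
    have h1 := (hcov _ h0).resolve_right hnB
    rw [mem_diffs] at h1
    obtain ⟨_, a3, ha3, a4, ha4, he⟩ := h1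
    refine ⟨a3, ha3, a4, ha4, he, ?_⟩
    apply lift_unique (n := Fintype.card Γ)
    · push_cast
      rw [← hfZ a0 ha0, ← hfZ a ha, ← hfZ a3 ha3, ← hfZ a4 ha4, ← map_sub, ← map_sub f a3 a4, he]
      rw [map_sub, map_sub, map_add, map_add]
      ring
    · have b0 := hZ a0 ha0
      have b1 := hZ a ha
      have b3 := hZ a3 ha3
      have b4 := hZ a4 ha4
      rcases abs_cases (2 * (Z a0 - Z a) - (Z a3 - Z a4)) with ⟨hh, _⟩ | ⟨hh, _⟩ <;>
      rcases abs_cases (Z a0) with ⟨g0, _⟩ | ⟨g0, _⟩ <;>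
      rcases abs_cases (Z a) with ⟨g1, _⟩ | ⟨g1, _⟩ <;>
      rcases abs_cases (Z a3) with ⟨g3, _⟩ | ⟨g3, _⟩ <;>
      rcases abs_cases (Z a4) with ⟨g4, _⟩ | ⟨g4, _⟩ <;>
      rw [hh] <;> omega
  have hexc : a0 + a0 - (-a0 + -a0) ∈ diffs B := by
    by_contra hnB
    obtain ⟨a3, ha3, a4, ha4, _, h2⟩ := key (-a0) hna0 hne0.symm hnB
    have := hmax a3 ha3
    have := hmin a4 ha4
    omega
  have hnot : ∀ a ∈ A, a ≠ a0 → a ≠ -a0 → a0 + a0 - (a + a) ∉ diffs B := by
    intro a ha h1 h2 h3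
    exact h2 (D.unique ha0 ha hna0 h1.symm hne0 h3 hexc)
  have hzero : ∀ a ∈ A, a ≠ a0 → a ≠ -a0 → Z a = 0 := by
    intro a ha h1 h2
    have hge : ∀ b ∈ A, b ≠ a0 → b ≠ -a0 → 0 ≤ Z b := by
      intro b hb g1 g2
      obtain ⟨a3, ha3, a4, ha4, _, h3⟩ := key b hb g1 (hnot b hb g1 g2)
      have := hmax a3 ha3
      have := hmin a4 ha4
      omega
    have k1 := hge a ha h1 h2
    have k2 := hge (-a) ((D.symX a).mp ha) (by
      intro h; apply h2; rw [← h, neg_neg]) (by
      intro h; apply h1; exact neg_injective h)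
    rw [hneg a ha] at k2
    omega
  obtain ⟨a, ha, hnot3⟩ : ∃ a ∈ A, a ∉ ({0, a0, -a0} : Finset Γ) := by
    by_contra hn'
    push Not at hn'
    have h1 : A ⊆ {0, a0, -a0} := hn'
    have h2 := card_le_card h1
    have h3 := card_insert_le (0 : Γ) {a0, -a0}
    have h4 := card_le_two (a := a0) (b := -a0)
    omega
  simp only [mem_insert, mem_singleton, not_or] at hnot3
  obtain ⟨n0, n1, n2⟩ := hnot3
  obtain ⟨a3, ha3, a4, ha4, he, h3⟩ := key a ha n1 (hnot a ha n1 n2)
  rw [hzero a ha n1 n2] at h3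
  have k3 := hmax a3 ha3
  have k4 := hmin a4 ha4
  have e3 : a3 = a0 := by
    by_contra h
    have : a3 ≠ -a0 := by
      intro h'; rw [h', hZn] at h3; omega
    rw [hzero a3 ha3 h this] at h3
    omega
  have e4 : a4 = -a0 := by
    by_contra h
    have : a4 ≠ a0 := by
      intro h'; rw [h'] at h3; omega
    rw [hzero a4 ha4 this h] at h3
    omega
  rw [e3, e4] at he
  apply n0
  apply D.double ha D.zero
  have : a + a = (a0 + a0) - (a0 + a0 - (a + a)) := by abel
  rw [this, ← he]; abel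

end Pool.Agent.H51.PG
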