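import Mathlib

/-! Near factorisations of finite abelian groups: uniqueness, symmetry and the two bounds
for the number of differences. -/

namespace Pool.Agent.H51.PG

open Finset

variable {Γ : Type*} [AddCommGroup Γ] [Fintype Γ] [DecidableEq Γ]

/-- number of representations of `g` as a sum of an element of `X` and one of `Y` -/
def rep (X Y : Finset Γ) (g : Γ) : ℕ := ((X ×ˢ Y).filter (fun z => z.1 + z.2 = g)).card

/-- `X + Y` is everything but `h`, each element once -/
def NF (X Y : Finset Γ) (h : Γ) : Prop := ∀ g, rep X Y g = if g = h then 0 else 1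

/-- the nonzero differences of a set -/
def diffs (X : Finset Γ) : Finset Γ := ((X ×ˢ X).image (fun z => z.1 - z.2)).erase 0

theorem mem_diffs {X : Finset Γ} {g : Γ} :
    g ∈ diffs X ↔ g ≠ 0 ∧ ∃ x ∈ X, ∃ y ∈ X, x - y = g := by
  unfold diffs
  simp only [mem_erase, mem_image, mem_product, Prod.exists]
  constructor
  · rintro ⟨h0, x, y, ⟨hx, hy⟩, h⟩
    exact ⟨h0, x, hx, y, hy, h⟩
  · rintro ⟨h0, x, hx, y, hy, h⟩
    exact ⟨h0, x, y, ⟨hx, hy⟩, h⟩

theorem sum_rep (X Y : Finset Γ) : ∑ g, rep X Y g = X.card * Y.card := by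
  unfold rep
  rw [← card_product]
  exact (card_eq_sum_card_fiberwise (f := fun z : Γ × Γ => z.1 + z.2) (t := univ)
    (s := X ×ˢ Y) (fun _ _ => mem_univ _)).symm

theorem rep_comm (X Y : Finset Γ) (g : Γ) : rep X Y g = rep Y X g := by
  unfold rep
  refine card_bij (fun z _ => (z.2, z.1)) ?_ ?_ ?_
  · intro z hz
    simp only [mem_filter, mem_product] at hz ⊢
    exact ⟨⟨hz.1.2, hz.1.1⟩, by rw [add_comm]; exact hz.2⟩
  · rintro ⟨a, b⟩ _ ⟨c, d⟩ _ h
    simp only [Prod.mk.injEq] at h ⊢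
    exact ⟨h.2, h.1⟩
  · rintro ⟨a, b⟩ h
    simp only [mem_filter, mem_product] at h
    refine ⟨(b, a), ?_, rfl⟩
    simp only [mem_filter, mem_product]
    exact ⟨⟨h.1.2, h.1.1⟩, by rw [add_comm]; exact h.2⟩

theorem rep_pos {X Y : Finset Γ} {g : Γ} :
    0 < rep X Y g ↔ ∃ x ∈ X, ∃ y ∈ Y, x + y = g := by
  unfold rep
  rw [card_pos]
  constructor
  · rintro ⟨⟨x, y⟩, h⟩
    simp only [mem_filter, mem_product] at h
    exact ⟨x, h.1.1, y, h.1.2, h.2⟩
  · rintro ⟨x, hx, y, hy, h⟩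
    exact ⟨(x, y), by simp only [mem_filter, mem_product]; exact ⟨⟨hx, hy⟩, h⟩⟩

theorem rep_le_one_of_inj {X Y : Finset Γ}
    (hinj : ∀ x ∈ X, ∀ y ∈ Y, ∀ x' ∈ X, ∀ y' ∈ Y, x + y = x' + y' → x = x' ∧ y = y') (g : Γ) :
    rep X Y g ≤ 1 := by
  unfold rep
  rw [card_le_one]
  rintro ⟨a, b⟩ h ⟨c, d⟩ h'
  simp only [mem_filter, mem_product] at h h'
  obtain ⟨h1, h2⟩ := hinj a h.1.1 b h.1.2 c h'.1.1 d h'.1.2 (h.2.trans h'.2.symm)
  rw [h1, h2]

theorem inj_of_rep_le_one {X Y : Finset Γ} (h : ∀ g, rep X Y g ≤ 1) :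
    ∀ x ∈ X, ∀ y ∈ Y, ∀ x' ∈ X, ∀ y' ∈ Y, x + y = x' + y' → x = x' ∧ y = y' := by
  intro x hx y hy x' hx' y' hy' he
  have := h (x + y)
  unfold rep at this
  rw [card_le_one] at this
  have h2 := this (x, y) (by simp only [mem_filter, mem_product]; exact ⟨⟨hx, hy⟩, trivial⟩)
    (x', y') (by simp only [mem_filter, mem_product]; exact ⟨⟨hx', hy'⟩, he.symm⟩)
  simp only [Prod.mk.injEq] at h2
  exact h2

/-- injective sum map and the right cardinalities: exactly one element is missed -/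
theorem exists_hole {X Y : Finset Γ}
    (hinj : ∀ x ∈ X, ∀ y ∈ Y, ∀ x' ∈ X, ∀ y' ∈ Y, x + y = x' + y' → x = x' ∧ y = y')
    (hc : Fintype.card Γ = X.card * Y.card + 1) : ∃ h, NF X Y h := by
  have h1 := rep_le_one_of_inj hinj
  have hs := sum_rep X Y
  have hsum : ∑ g : Γ, (1 - rep X Y g) = 1 := by
    have : ∑ g : Γ, (1 - rep X Y g) + ∑ g : Γ, rep X Y g = ∑ g : Γ, 1 := by
      rw [← sum_add_distrib]
      exact sum_congr rfl (fun g _ => by have := h1 g; omega)
    rw [hs, sum_const, card_univ, hc] at this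
    simp only [smul_eq_mul, mul_one] at this
    omega
  obtain ⟨h, -, hh⟩ : ∃ g ∈ (univ : Finset Γ), 1 - rep X Y g ≠ 0 := by
    apply exists_ne_zero_of_sum_ne_zero
    rw [hsum]; exact one_ne_zero
  refine ⟨h, fun g => ?_⟩
  by_cases hg : g = h
  · rw [if_pos hg, hg]
    have := h1 h
    omega
  · rw [if_neg hg]
    by_contra hne
    have h2 : 1 - rep X Y g ≠ 0 := by have := h1 g; omega
    have h3 : (1 - rep X Y g) + (1 - rep X Y h) ≤ ∑ g : Γ, (1 - rep X Y g) := by
      rw [← sum_pair (f := fun g => 1 - rep X Y g) hg]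
      exact sum_le_sum_of_subset (subset_univ _)
    omega

section Alg

variable (R : Type*) [CommRing R]

/-- the element of the group algebra belonging to a set -/
noncomputable def el (X : Finset Γ) : AddMonoidAlgebra R Γ :=
  ∑ x ∈ X, AddMonoidAlgebra.single x (1 : R)

theorem el_coeff (X : Finset Γ) (g : Γ) : (el R X).coeff g = if g ∈ X then 1 else 0 := by
  unfold el
  rw [AddMonoidAlgebra.coeff_sum, Finsupp.finset_sum_apply]
  simp only [AddMonoidAlgebra.coeff_single, Finsupp.single_apply]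
  rw [Finset.sum_ite_eq']

theorem mul_coeff (X Y : Finset Γ) (g : Γ) : (el R X * el R Y).coeff g = (rep X Y g : R) := by
  unfold el rep
  rw [Finset.sum_mul_sum]
  simp only [AddMonoidAlgebra.single_mul_single, mul_one]
  rw [AddMonoidAlgebra.coeff_sum, Finsupp.finset_sum_apply]
  simp only [AddMonoidAlgebra.coeff_sum, Finsupp.finset_sum_apply, AddMonoidAlgebra.coeff_single,
    Finsupp.single_apply]
  rw [Finset.card_filter, Nat.cast_sum, Finset.sum_product]
  simp

theorem el_univ_mul (X : Finset Γ) : el R X * el R univ = (X.card : R) • el R univ := by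
  apply AddMonoidAlgebra.ext
  ext g
  rw [mul_coeff, AddMonoidAlgebra.coeff_smul, Finsupp.smul_apply, el_coeff]
  simp only [mem_univ, if_true, smul_eq_mul, mul_one]
  congr 1
  unfold rep
  refine card_bij (fun z _ => z.1) ?_ ?_ ?_
  · intro z hz
    simp only [mem_filter, mem_product] at hz
    exact hz.1.1
  · rintro ⟨a, b⟩ h ⟨c, d⟩ h' hac
    simp only [mem_filter, mem_product, mem_univ, and_true] at h h' hac ⊢
    subst hac
    have := h.2.trans h'.2.symm
    rw [add_left_cancel this]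
  · intro a ha
    refine ⟨(a, g - a), ?_, rfl⟩
    simp only [mem_filter, mem_product, mem_univ, and_true]
    exact ⟨ha, by abel⟩

theorem NF.mul {X Y : Finset Γ} {h : Γ} (H : NF X Y h) :
    el R X * el R Y = el R univ - AddMonoidAlgebra.single h 1 := by
  apply AddMonoidAlgebra.ext
  ext g
  rw [mul_coeff, AddMonoidAlgebra.coeff_sub, Finsupp.sub_apply, el_coeff, H g,
    AddMonoidAlgebra.coeff_single, Finsupp.single_apply]
  by_cases hg : g = h
  · simp [hg]
  · simp [hg, Ne.symm hg]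

end Alg

theorem NF.comm {X Y : Finset Γ} {h : Γ} (H : NF X Y h) : NF Y X h := fun g => by
  rw [rep_comm]; exact H g

theorem NF.card {X Y : Finset Γ} {h : Γ} (H : NF X Y h) :
    Fintype.card Γ = X.card * Y.card + 1 := by
  have h1 := sum_rep X Y
  rw [← h1, Finset.sum_congr rfl (fun g _ => H g)]
  have : ∑ g : Γ, (if g = h then 0 else 1) + 1 = ∑ g : Γ, 1 := by
    have h2 : ∑ g : Γ, (if g = h then (1:ℕ) else 0) = 1 := by simp
    nth_rw 2 [← h2]
    rw [← sum_add_distrib]
    exact sum_congr rfl (fun g _ => by split_ifs <;> rfl)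
  rw [this]
  simp

theorem NF.inj {X Y : Finset Γ} {h : Γ} (H : NF X Y h) :
    ∀ x ∈ X, ∀ y ∈ Y, ∀ x' ∈ X, ∀ y' ∈ Y, x + y = x' + y' → x = x' ∧ y = y' :=
  inj_of_rep_le_one (fun g => by rw [H g]; split_ifs <;> omega)

/-- two sets with the same complement are translates -/
theorem NF.uniq {X X' Y : Finset Γ} {h h' : Γ} (H : NF X Y h) (H' : NF X' Y h')
    (hY : Y.Nonempty) (x : Γ) : x ∈ X' ↔ x - (h' - h) ∈ X := by
  have hcard : X.card = X'.card := by
    have h1 := H.card
    have h2 := H'.card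
    have h3 : X.card * Y.card = X'.card * Y.card := by omega
    exact Nat.eq_of_mul_eq_mul_right hY.card_pos h3
  set t : AddMonoidAlgebra ℤ Γ := AddMonoidAlgebra.single (h' - h) 1 with ht
  have e1 := H.mul ℤ
  have e2 := H'.mul ℤ
  have e3 : t * el ℤ univ = el ℤ (univ : Finset Γ) := by
    apply AddMonoidAlgebra.ext
    ext g
    rw [ht, AddMonoidAlgebra.coeff_single_mul_apply, el_coeff, el_coeff]
    simp
  have e4 : t * AddMonoidAlgebra.single h 1 = (AddMonoidAlgebra.single h' 1 : AddMonoidAlgebra ℤ Γ) := by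
    rw [ht, AddMonoidAlgebra.single_mul_single, sub_add_cancel, mul_one]
  have e5 : (el ℤ X' - t * el ℤ X) * el ℤ Y = 0 := by
    have : (el ℤ X' - t * el ℤ X) * el ℤ Y = el ℤ X' * el ℤ Y - t * (el ℤ X * el ℤ Y) := by ring
    rw [this, e1, e2, mul_sub, e3, e4, sub_self]
  have e6 : (el ℤ X' - t * el ℤ X) * (el ℤ univ - AddMonoidAlgebra.single h 1) = 0 := by
    rw [← e1]
    have : (el ℤ X' - t * el ℤ X) * (el ℤ X * el ℤ Y)
        = (el ℤ X' - t * el ℤ X) * el ℤ Y * el ℤ X := by ring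
    rw [this, e5, zero_mul]
  have e7 : (el ℤ X' - t * el ℤ X) * el ℤ univ = 0 := by
    have : (el ℤ X' - t * el ℤ X) * el ℤ univ
        = el ℤ X' * el ℤ univ - t * (el ℤ X * el ℤ univ) := by ring
    rw [this, el_univ_mul, el_univ_mul, hcard, mul_smul_comm, e3, sub_self]
  have e8 : (el ℤ X' - t * el ℤ X) * AddMonoidAlgebra.single h 1 = 0 := by
    have := e6
    rw [mul_sub, e7, zero_sub, neg_eq_zero] at this
    exact this
  have e9 : el ℤ X' - t * el ℤ X = 0 := by
    have h1 : (AddMonoidAlgebra.single h 1 : AddMonoidAlgebra ℤ Γ) * AddMonoidAlgebra.single (-h) 1 = 1 := by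
      rw [AddMonoidAlgebra.single_mul_single, add_neg_cancel, mul_one, AddMonoidAlgebra.one_def]
    calc el ℤ X' - t * el ℤ X = (el ℤ X' - t * el ℤ X) * 1 := (mul_one _).symm
      _ = (el ℤ X' - t * el ℤ X) * AddMonoidAlgebra.single h 1 * AddMonoidAlgebra.single (-h) 1 := by
          rw [← h1, mul_assoc]
      _ = 0 := by rw [e8, zero_mul]
  have e10 : (el ℤ X').coeff x = (t * el ℤ X).coeff x := by
    rw [sub_eq_zero.mp e9]
  rw [ht, AddMonoidAlgebra.coeff_single_mul_apply, el_coeff, el_coeff, one_mul] at e10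
  have e11 : -(h' - h) + x = x - (h' - h) := by abel
  rw [e11] at e10
  by_cases ha : x ∈ X' <;> by_cases hb : x - (h' - h) ∈ X <;> simp_all

/-- both factors are centrally symmetric -/
theorem NF.symm_left {X Y : Finset Γ} {h : Γ} (H : NF X Y h) (hY : Y.Nonempty) :
    ∃ c, ∀ x, x ∈ X ↔ c - x ∈ X := by
  have hinj := H.inj
  have hinj' : ∀ x ∈ X.image (fun z => -z), ∀ y ∈ Y, ∀ x' ∈ X.image (fun z => -z), ∀ y' ∈ Y,
      x + y = x' + y' → x = x' ∧ y = y' := by
    intro x hx y hy x' hx' y' hy' he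
    obtain ⟨a, ha, rfl⟩ := mem_image.mp hx
    obtain ⟨a', ha', rfl⟩ := mem_image.mp hx'
    have h1 : a + y' = a' + y := by
      have : a + y' = (-a' + y') + (a + a') := by abel
      rw [this, ← he]; abel
    obtain ⟨h2, h3⟩ := hinj a ha y' hy' a' ha' y hy h1
    exact ⟨by rw [h2], h3.symm⟩
  have hcard : (X.image (fun z => -z)).card = X.card :=
    card_image_of_injective _ neg_injective
  obtain ⟨h', H'⟩ := exists_hole hinj' (by rw [hcard]; exact H.card)
  refine ⟨h - h', fun x => ?_⟩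
  have := H.uniq H' hY (-x)
  rw [mem_image] at this
  have h1 : (∃ a ∈ X, -a = -x) ↔ x ∈ X := by
    constructor
    · rintro ⟨a, ha, hax⟩
      rw [neg_inj] at hax
      rw [← hax]; exact ha
    · intro hx; exact ⟨x, hx, rfl⟩
  rw [h1] at this
  rw [this]
  have h2 : -x - (h' - h) = h - h' - x := by abel
  rw [h2]

end Pool.Agent.H51.PG
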