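import Pool.Agent.H51.PG.Three

/-! Factors of odd cardinality: `e_2(A) = W A` with a multiset `W` on `A`, and a better bound
for the number of differences. -/

namespace Pool.Agent.H51.PG

open Finset

variable {Γ : Type*} [AddCommGroup Γ] [Fintype Γ] [DecidableEq Γ]

/-- number of solutions of `2x + y = g` -/
def rep2 (X Y : Finset Γ) (g : Γ) : ℕ := ∑ a ∈ X, ind Y (g - (a + a))

theorem rep2_eq (X Y : Finset Γ) (g : Γ) :
    rep2 X Y g = ((X ×ˢ Y).filter (fun z => (z.1 + z.1) + z.2 = g)).card := by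
  have h : rep2 X Y g = (X.filter (fun a => g - (a + a) ∈ Y)).card := by
    rw [card_filter]; rfl
  rw [h]
  symm
  refine card_bij (fun z _ => z.1) ?_ ?_ ?_
  · rintro ⟨a, b⟩ h
    simp only [mem_filter, mem_product] at h ⊢
    refine ⟨h.1.1, ?_⟩
    have : g - (a + a) = b := by rw [← h.2]; abel
    rw [this]; exact h.1.2
  · rintro ⟨a, b⟩ h ⟨c, d⟩ h' hac
    simp only [mem_filter, mem_product] at h h' hac ⊢
    subst hac
    rw [add_left_cancel (h.2.trans h'.2.symm)]
  · intro a ha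
    simp only [mem_filter] at ha
    refine ⟨(a, g - (a + a)), ?_, rfl⟩
    simp only [mem_filter, mem_product]
    exact ⟨⟨ha.1, ha.2⟩, by abel⟩

theorem sum_rep2 (X Y : Finset Γ) : ∑ g, rep2 X Y g = X.card * Y.card := by
  simp only [rep2_eq]
  rw [← card_product]
  exact (card_eq_sum_card_fiberwise (f := fun z : Γ × Γ => (z.1 + z.1) + z.2) (t := univ)
    (s := X ×ˢ Y) (fun _ _ => mem_univ _)).symm

theorem charP2 : CharP (AddMonoidAlgebra (ZMod 2) Γ) 2 :=
  charP_of_injective_algebraMap (FaithfulSMul.algebraMap_injective (ZMod 2) (AddMonoidAlgebra (ZMod 2) Γ)) 2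

/-- Frobenius mod 2 -/
theorem rep2_mod {X Y : Finset Γ} (H : NF X Y 0) (g : Γ) :
    (rep2 X Y g : ZMod 2) + (ind X g : ZMod 2) = (X.card : ZMod 2) := by
  haveI : CharP (AddMonoidAlgebra (ZMod 2) Γ) 2 := charP2
  haveI : Fact (Nat.Prime 2) := ⟨Nat.prime_two⟩
  have e1 : (el (ZMod 2) X) ^ 2 = ∑ x ∈ X, AddMonoidAlgebra.single (x + x) (1 : ZMod 2) := by
    unfold el
    rw [sum_pow_char]
    refine sum_congr rfl (fun x _ => ?_)
    rw [pow_two, AddMonoidAlgebra.single_mul_single, one_mul]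
  have e2 : ((el (ZMod 2) X) ^ 2 * el (ZMod 2) Y).coeff g = (rep2 X Y g : ZMod 2) := by
    rw [e1, rep2_eq]
    unfold el
    rw [Finset.sum_mul_sum]
    simp only [AddMonoidAlgebra.single_mul_single, mul_one]
    rw [AddMonoidAlgebra.coeff_sum, Finsupp.finset_sum_apply]
    simp only [AddMonoidAlgebra.coeff_sum, Finsupp.finset_sum_apply, AddMonoidAlgebra.coeff_single,
      Finsupp.single_apply]
    rw [Finset.card_filter, Nat.cast_sum, Finset.sum_product]
    simp
  have e3 : (el (ZMod 2) X) ^ 2 * el (ZMod 2) Y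
      = ((X.card : ZMod 2) • el (ZMod 2) univ) - el (ZMod 2) X := by
    have : (el (ZMod 2) X) ^ 2 * el (ZMod 2) Y
        = (el (ZMod 2) X * (el (ZMod 2) X * el (ZMod 2) Y)) := by ring
    rw [this, H.mul (ZMod 2), mul_sub, el_univ_mul, ← AddMonoidAlgebra.one_def, mul_one]
  rw [← e2, e3, AddMonoidAlgebra.coeff_sub, Finsupp.sub_apply, AddMonoidAlgebra.coeff_smul,
    Finsupp.smul_apply, el_coeff, el_coeff]
  unfold ind
  by_cases hg : g ∈ X <;> simp [hg]

theorem rep2_conv {X Y : Finset Γ} (H : NF X Y 0) (g : Γ) :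
    ∑ a ∈ X, rep2 X Y (g - a) + (X.filter (fun a => a + a = g)).card = X.card := by
  have h1 : ∑ a ∈ X, rep2 X Y (g - a) = ∑ a ∈ X, rep X Y (g - (a + a)) := by
    unfold rep2
    rw [sum_comm]
    refine sum_congr rfl (fun a _ => ?_)
    rw [rep_eq_sum]
    refine sum_congr rfl (fun b _ => ?_)
    have : g - b - (a + a) = g - (a + a) - b := by abel
    rw [this]
  rw [h1, card_filter, ← sum_add_distrib, card_eq_sum_ones]
  refine sum_congr rfl (fun a _ => ?_)
  rw [H]
  by_cases ha : a + a = g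
  · rw [if_pos (by rw [ha, sub_self]), if_pos ha]
  · rw [if_neg (fun h => ha (sub_eq_zero.mp h).symm), if_neg ha]

/-- the multiset `W` -/
def Wt (X Y : Finset Γ) (g : Γ) : ℕ := (ind X g + rep2 X Y g - 1) / 2

theorem Wt_eq {X Y : Finset Γ} (H : NF X Y 0) (ho : Odd X.card) (g : Γ) :
    2 * Wt X Y g + 1 = ind X g + rep2 X Y g := by
  have h1 := rep2_mod H g
  have h2 : ((rep2 X Y g + ind X g : ℕ) : ZMod 2) = ((X.card : ℕ) : ZMod 2) := by
    push_cast; exact h1
  rw [ZMod.natCast_eq_natCast_iff] at h2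
  have h3 : (rep2 X Y g + ind X g) % 2 = X.card % 2 := h2
  have h4 := Nat.odd_iff.mp ho
  unfold Wt
  omega

theorem rep_Wt {X Y : Finset Γ} (H : NF X Y 0) (ho : Odd X.card) (g : Γ) :
    rep X X g = 2 * ∑ a ∈ X, Wt X Y (g - a) + (X.filter (fun a => a + a = g)).card := by
  have h1 : ∑ a ∈ X, (2 * Wt X Y (g - a) + 1) = ∑ a ∈ X, (ind X (g - a) + rep2 X Y (g - a)) :=
    sum_congr rfl (fun a _ => Wt_eq H ho _)
  rw [sum_add_distrib, sum_add_distrib, ← mul_sum, ← card_eq_sum_ones, ← rep_eq_sum] at h1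
  have h2 := rep2_conv H g
  omega

/-- number of elements of `X` which are fixed points of the symmetry -/
def fixc (X : Finset Γ) (c : Γ) : ℕ := (X.filter (fun a => a + a = c)).card

theorem sum_rep2_self {X Y : Finset Γ} {c : Γ} (hc : ∀ x, x ∈ X ↔ c - x ∈ X) (H : NF X Y 0) :
    ∑ a ∈ X, rep2 X Y a + fixc X c = X.card := by
  have h1 := rep2_conv H c
  have h2 : ∑ a ∈ X, rep2 X Y (c - a) = ∑ a ∈ X, rep2 X Y a := by
    refine sum_nbij' (fun a => c - a) (fun a => c - a) ?_ ?_ ?_ ?_ ?_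
    · intro a ha; exact (hc a).mp ha
    · intro a ha; exact (hc a).mp ha
    · intro a _; abel
    · intro a _; abel
    · intro a _; rfl
  rw [h2] at h1
  exact h1

/-- off `X` the number of solutions is at least one -/
theorem rep2_off {X Y : Finset Γ} (H : NF X Y 0) (ho : Odd X.card) {g : Γ} (hg : g ∉ X) :
    1 ≤ rep2 X Y g := by
  have := Wt_eq H ho g
  unfold ind at this
  rw [if_neg hg] at this
  omega

theorem sum_off {X Y : Finset Γ} {c : Γ} (hc : ∀ x, x ∈ X ↔ c - x ∈ X) (H : NF X Y 0)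
    (ho : Odd X.card) : ∑ g ∈ univ \ X, (rep2 X Y g - 1) + 1 = fixc X c := by
  have h1 := sum_rep2_self hc H
  have h2 := sum_rep2 X Y
  rw [← sum_sdiff (subset_univ X)] at h2
  have h3 : ∑ g ∈ univ \ X, (rep2 X Y g - 1) + (univ \ X).card = ∑ g ∈ univ \ X, rep2 X Y g := by
    rw [card_eq_sum_ones, ← sum_add_distrib]
    refine sum_congr rfl (fun g hg => ?_)
    have := rep2_off H ho (mem_sdiff.mp hg).2
    omega
  have h4 : (univ \ X).card = X.card * Y.card + 1 - X.card := by
    rw [card_sdiff_of_subset (subset_univ X), card_univ, H.card]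
  have h5 : 1 ≤ fixc X c := by
    obtain ⟨a, ha, hac⟩ := center_of_odd hc ho
    exact card_pos.mpr ⟨a, mem_filter.mpr ⟨ha, hac⟩⟩
  have h6 : X.card ≤ X.card * Y.card + 1 := by
    rw [← H.card]; exact card_le_univ X
  omega

theorem Wt_supp {X Y : Finset Γ} {c : Γ} (hc : ∀ x, x ∈ X ↔ c - x ∈ X) (H : NF X Y 0)
    (ho : Odd X.card) (hf : fixc X c = 1) {g : Γ} (hg : Wt X Y g ≠ 0) : g ∈ X := by
  by_contra hgX
  have h1 := sum_off hc H ho
  rw [hf] at h1
  have h2 : rep2 X Y g - 1 ≤ ∑ g ∈ univ \ X, (rep2 X Y g - 1) :=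
    single_le_sum (f := fun g => rep2 X Y g - 1) (fun _ _ => Nat.zero_le _)
      (mem_sdiff.mpr ⟨mem_univ g, hgX⟩)
  have h3 := Wt_eq H ho g
  unfold ind at h3
  rw [if_neg hgX] at h3
  omega

theorem sum_Wt {X Y : Finset Γ} {c : Γ} (hc : ∀ x, x ∈ X ↔ c - x ∈ X) (H : NF X Y 0)
    (ho : Odd X.card) (hf : fixc X c = 1) : 2 * ∑ a ∈ X, Wt X Y a + 1 = X.card := by
  have h1 := sum_rep2_self hc H
  have h2 : ∑ a ∈ X, (2 * Wt X Y a + 1) = ∑ a ∈ X, (1 + rep2 X Y a) := by
    refine sum_congr rfl (fun a ha => ?_)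
    rw [Wt_eq H ho a]
    unfold ind
    rw [if_pos ha]
  rw [sum_add_distrib, sum_add_distrib, ← mul_sum, ← card_eq_sum_ones] at h2
  omega

/-- the bound for a factor with `2m+1` elements and one fixed point -/
theorem bound8 {X Y : Finset Γ} {c : Γ} (hc : ∀ x, x ∈ X ↔ c - x ∈ X) (H : NF X Y 0)
    {m : ℕ} (hm : X.card = 2 * m + 1) (hf : fixc X c = 1) :
    2 * (diffs X).card ≤ 3 * m ^ 2 + 5 * m := by
  have ho : Odd X.card := ⟨m, hm⟩
  set K := X.filter (fun a => Wt X Y a ≠ 0) with hK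
  have hKc : K.card ≤ m := by
    have h1 := sum_Wt hc H ho hf
    have h2 : K.card ≤ ∑ a ∈ X, Wt X Y a := by
      rw [hK, card_filter]
      refine sum_le_sum (fun a _ => ?_)
      split_ifs <;> omega
    omega
  set S := univ.filter (fun g => g ∉ X.image (fun x => x + x) ∧ rep X X g = 2) with hS
  have hSc : S.card ≤ m * (m + 1) := by
    have hsub : S ⊆ (K ×ˢ (X \ K)).image (fun z => z.1 + z.2) := by
      intro g hg
      rw [hS, mem_filter] at hg
      obtain ⟨-, hg2, hgr⟩ := hg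
      have h0 : (X.filter (fun a => a + a = g)).card = 0 := by
        rw [card_eq_zero, filter_eq_empty_iff]
        intro a ha h
        exact hg2 (mem_image.mpr ⟨a, ha, h⟩)
      have h1 := rep_Wt H ho g
      rw [hgr, h0] at h1
      have h2 : ∑ a ∈ X, Wt X Y (g - a) = 1 := by omega
      obtain ⟨a, ha, hWa⟩ : ∃ a ∈ X, Wt X Y (g - a) ≠ 0 := by
        apply exists_ne_zero_of_sum_ne_zero
        rw [h2]; exact one_ne_zero
      have hw : g - a ∈ X := Wt_supp hc H ho hf hWa
      have hne : a ≠ g - a := by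
        intro h
        apply hg2
        rw [mem_image]
        refine ⟨a, ha, ?_⟩
        nth_rw 1 [h]; abel
      have h3 : Wt X Y (g - a) + Wt X Y (g - (g - a)) ≤ ∑ a ∈ X, Wt X Y (g - a) := by
        rw [← sum_pair (f := fun a => Wt X Y (g - a)) hne]
        apply sum_le_sum_of_subset
        intro z hz
        rw [mem_insert, mem_singleton] at hz
        rcases hz with rfl | rfl
        · exact ha
        · exact hw
      have h4 : g - (g - a) = a := by abel
      rw [h4, h2] at h3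
      rw [mem_image]
      refine ⟨(g - a, a), ?_, by simp⟩
      simp only [mem_product, mem_sdiff, hK, mem_filter]
      refine ⟨⟨hw, hWa⟩, ha, ?_⟩
      rintro ⟨-, h⟩
      omega
    refine (card_le_card hsub).trans (card_image_le.trans ?_)
    have hKX : K ⊆ X := filter_subset _ _
    rw [card_product, card_sdiff_of_subset hKX, hm]
    obtain ⟨d, hd⟩ : ∃ d, m = K.card + d := ⟨m - K.card, by omega⟩
    have e1 : 2 * m + 1 - K.card = K.card + 2 * d + 1 := by omega
    rw [e1, hd]
    nlinarith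
  have h1 : ∀ g ∈ univ.erase c, (4 * if 0 < rep X X g then 1 else 0) ≤
      rep X X g + 2 * (if g ∈ S then 1 else 0)
        + 3 * if g ∈ (X.image (fun x => x + x)).erase c then 1 else 0 := by
    intro g hg
    rw [mem_erase] at hg
    by_cases h2 : g ∈ X.image (fun x => x + x)
    · rw [if_pos (mem_erase.mpr ⟨hg.1, h2⟩)]
      split_ifs <;> omega
    · have h0 : (X.filter (fun a => a + a = g)).card = 0 := by
        rw [card_eq_zero, filter_eq_empty_iff]
        intro a ha h
        exact h2 (mem_image.mpr ⟨a, ha, h⟩)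
      have h3 := rep_Wt H ho g
      rw [h0] at h3
      by_cases h4 : rep X X g = 2
      · rw [if_pos (show g ∈ S by rw [hS, mem_filter]; exact ⟨mem_univ g, h2, h4⟩)]
        split_ifs <;> omega
      · split_ifs <;> omega
  have h2 := sum_le_sum h1
  rw [← mul_sum, sum_add_distrib, sum_add_distrib, ← mul_sum, ← mul_sum] at h2
  have h3 : ∑ g ∈ univ.erase c, (if 0 < rep X X g then 1 else 0)
      = ((univ.erase c).filter (fun g => 0 < rep X X g)).card := by
    rw [card_filter]
  have h4 : ∑ g ∈ univ.erase c, (if g ∈ (X.image (fun x => x + x)).erase c then 1 else 0)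
      ≤ ((X.image (fun x => x + x)).erase c).card := by
    rw [← card_filter]
    refine card_le_card (fun g hg => ?_)
    rw [mem_filter] at hg
    exact hg.2
  have h5 : ∑ g ∈ univ.erase c, (if g ∈ S then 1 else 0) ≤ S.card := by
    rw [← card_filter]
    refine card_le_card (fun g hg => ?_)
    rw [mem_filter] at hg
    exact hg.2
  have h6 : ((X.image (fun x => x + x)).erase c).card + 1 ≤ X.card := by
    obtain ⟨a, ha, hac⟩ := center_of_odd hc ho
    have h3 : c ∈ X.image (fun x => x + x) := mem_image.mpr ⟨a, ha, hac⟩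
    have h5 := card_erase_add_one h3
    rw [h5]; exact card_image_le
  have h7 := sum_rep_erase hc
  rw [h3, card_supp hc] at h2
  rw [hm] at h6 h7
  nlinarith

/-- a factor of odd cardinality has exactly one fixed point -/
theorem fixc_one {X Y : Finset Γ} {c : Γ} (hc : ∀ x, x ∈ X ↔ c - x ∈ X) (H : NF X Y 0)
    (hX : Odd X.card) (hY : 2 ≤ Y.card) : fixc X c = 1 := by
  have h1 := sum_off hc H hX
  set F := Y.image (fun b => c + b) with hF
  have hFc : F.card = Y.card := card_image_of_injective _ (add_right_injective c)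
  have hFsub : F ⊆ univ \ X := by
    intro z hz
    rw [hF, mem_image] at hz
    obtain ⟨b, hb, rfl⟩ := hz
    rw [mem_sdiff]
    refine ⟨mem_univ _, fun hX' => ?_⟩
    have h2 := H 0
    rw [if_pos rfl] at h2
    have h4 := (hc _).mp hX'
    have h5 : c - (c + b) = -b := by abel
    rw [h5] at h4
    have h3 : 0 < rep X Y 0 := rep_pos.mpr ⟨-b, h4, b, hb, by abel⟩
    omega
  have hFrep : ∀ z ∈ F, fixc X c ≤ rep2 X Y z := by
    intro z hz
    rw [hF, mem_image] at hz
    obtain ⟨b, hb, rfl⟩ := hz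
    unfold fixc rep2
    rw [card_filter]
    refine sum_le_sum (fun a _ => ?_)
    by_cases ha : a + a = c
    · rw [if_pos ha, ha, add_sub_cancel_left]
      unfold ind
      rw [if_pos hb]
    · rw [if_neg ha]; exact Nat.zero_le _
  have h2 : ∑ z ∈ F, (fixc X c - 1) ≤ ∑ g ∈ univ \ X, (rep2 X Y g - 1) := by
    refine (sum_le_sum (fun z hz => ?_)).trans (sum_le_sum_of_subset hFsub)
    have := hFrep z hz
    omega
  rw [sum_const, hFc, smul_eq_mul] at h2
  by_contra h4
  have h6 : 2 * (fixc X c - 1) ≤ Y.card * (fixc X c - 1) := Nat.mul_le_mul_right _ hY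
  omega

/-- the bound (times 24) for the number of nonzero differences of a factor with `x` elements -/
def bnd (x : ℕ) : ℕ :=
  if 3 ∣ x then (if Odd x then 9 * x ^ 2 + 12 * x - 21 else 12 * x ^ 2) else 8 * x ^ 2 + 16 * x

theorem diffs_le_bnd {X Y : Finset Γ} {c : Γ} (hc : ∀ x, x ∈ X ↔ c - x ∈ X) (H : NF X Y 0)
    (hY : 2 ≤ Y.card) : 24 * (diffs X).card ≤ bnd X.card := by
  unfold bnd
  split_ifs with h1 h2
  · obtain ⟨m, hm⟩ := h2
    have := bound8 hc H hm (fixc_one hc H ⟨m, hm⟩ hY)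
    rw [hm]
    have e : 9 * (2 * m + 1) ^ 2 + 12 * (2 * m + 1) - 21 = 36 * m ^ 2 + 60 * m := by
      have : 9 * (2 * m + 1) ^ 2 + 12 * (2 * m + 1) = 36 * m ^ 2 + 60 * m + 21 := by ring
      omega
    rw [e]
    omega
  · have := bound2 hc
    omega
  · have := bound3 H (card_pos.mp (by omega)) h1
    omega

end Pool.Agent.H51.PG
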