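import Pool.Agent.H51.PG.Two

/-! Factors with three elements: no weak pair only for seven vertices. -/

namespace Pool.Agent.H51.PG

open Finset

variable {Γ : Type*} [AddCommGroup Γ] [Fintype Γ] [DecidableEq Γ]

theorem center_of_odd {X : Finset Γ} {c : Γ} (hc : ∀ x, x ∈ X ↔ c - x ∈ X) (ho : Odd X.card) :
    ∃ a ∈ X, a + a = c := by
  by_contra hn
  push Not at hn
  have h4 : ∑ x ∈ X, (1 : ZMod 2) = 0 := by
    refine Finset.sum_involution (fun x _ => c - x) ?_ ?_ ?_ ?_
    · intro a _; decide
    · intro a ha _ he
      apply hn a ha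
      nth_rw 1 [← he]
      abel
    · intro a ha; exact (hc a).mp ha
    · intro a ha; abel
  rw [sum_const, nsmul_eq_mul, mul_one] at h4
  have h5 := (ZMod.natCast_eq_zero_iff X.card 2).mp h4
  obtain ⟨k, hk⟩ := ho
  omega

theorem three_seq {a : ℕ → ℕ} (h : ∀ k, a k + a (k + 1) + a (k + 2) = 1) (m r : ℕ) :
    a (3 * m + r) = a r := by
  induction m with
  | zero => simp
  | succ m ih =>
    have h1 := h (3 * m + r)
    have h2 := h (3 * m + r + 1)
    have e : 3 * (m + 1) + r = 3 * m + r + 1 + 2 := by ring
    rw [e]
    have e2 : 3 * m + r + 1 + 1 = 3 * m + r + 2 := by ring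
    rw [e2] at h2
    omega

theorem three_main {A B : Finset Γ} {a0 d : Γ} (hne : a0 - d ≠ a0 + d) (hd0 : d ≠ 0)
    (hA : A = {a0, a0 - d, a0 + d}) (H : NF A B 0)
    (hcov : ∀ x, x ≠ 0 → x ∈ diffs A ∨ x ∈ diffs B) : B.card ≤ 2 := by
  have h1 : a0 ≠ a0 - d := by
    intro h; apply hd0; have := h.symm; rwa [sub_eq_self] at this
  have h2 : a0 ≠ a0 + d := by
    intro h; apply hd0; have := h.symm; rwa [add_eq_left] at this
  have hAc : A.card = 3 := by rw [hA]; exact card_eq_three.mpr ⟨_, _, _, h1, h2, hne, rfl⟩
  have hcard := H.card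
  rw [hAc] at hcard
  set u : Γ → ℕ := fun g => ind B (g - a0) with hu
  have hrep : ∀ g, rep A B g = u (g - d) + u g + u (g + d) := by
    intro g
    rw [rep_eq_sum, hA, sum_insert (by simp only [mem_insert, mem_singleton, not_or]; exact ⟨h1, h2⟩),
      sum_pair hne, hu]
    simp only
    have e1 : g - (a0 - d) = g + d - a0 := by abel
    have e2 : g - (a0 + d) = g - d - a0 := by abel
    rw [e1, e2]; ring
  have hrec : ∀ g, g ≠ 0 → u (g - d) + u g + u (g + d) = 1 := by
    intro g hg
    rw [← hrep, H g, if_neg hg]
  have hzero : u (0 - d) + u 0 + u (0 + d) = 0 := by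
    rw [← hrep, H 0, if_pos rfl]
  -- generation
  have hgen : ∀ z, z ∈ AddSubgroup.zmultiples d := by
    intro z
    by_contra hz
    have hw : ∀ k : ℕ, z + k • d ≠ 0 := by
      intro k h
      apply hz
      have : z = -(k • d) := by rw [eq_neg_iff_add_eq_zero, h]
      rw [this]
      exact AddSubgroup.neg_mem _ (AddSubgroup.nsmul_mem_zmultiples d k)
    have hseq : ∀ k : ℕ, u (z + k • d) + u (z + (k + 1) • d) + u (z + (k + 2) • d) = 1 := by
      intro k
      have := hrec _ (hw (k + 1))
      have e1 : z + (k + 1) • d - d = z + k • d := by rw [succ_nsmul]; abel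
      have e2 : z + (k + 1) • d + d = z + (k + 2) • d := by rw [succ_nsmul, succ_nsmul _ (k+1), succ_nsmul]; abel
      rw [e1, e2] at this
      exact this
    have hper := fun m r => three_seq (a := fun k => u (z + k • d)) hseq m r
    have e1 := hper B.card 1
    have e2 := hper B.card 2
    have e3 : z + (3 * B.card + 1) • d = z + 0 • d := by
      rw [← hcard, card_nsmul_eq_zero, zero_nsmul]
    have e4 : z + (3 * B.card + 2) • d = z + 1 • d := by
      have : 3 * B.card + 2 = (3 * B.card + 1) + 1 := by ring
      rw [this, add_nsmul, ← hcard, card_nsmul_eq_zero, zero_add]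
    rw [e3] at e1
    rw [e4] at e2
    have e5 := hseq 0
    simp only [zero_add] at e5
    omega
  -- the sequence along the generator
  have hk0 : ∀ k : ℕ, 0 < k → k < Fintype.card Γ → k • d ≠ 0 := by
    intro k hk hkn h
    have := zsmul_eq_iff hgen k 0 hkn (by omega) (by rw [h, zero_nsmul])
    omega
  have hseq : ∀ k, k ≤ Fintype.card Γ → u (k • d) = if k % 3 = 2 then 1 else 0 := by
    intro k
    induction k using Nat.strong_induction_on with
    | _ k ih =>
      intro hkn
      match k, ih, hkn with
      | 0, _, _ => simp only [zero_nsmul]; rw [if_neg (by norm_num)]; omega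
      | 1, _, _ =>
        simp only [one_nsmul]; rw [if_neg (by norm_num)]
        rw [zero_add] at hzero; omega
      | 2, ih, hkn =>
        have h3 := hrec (1 • d) (hk0 1 (by omega) (by omega))
        have e1 : 1 • d - d = 0 • d := by simp
        have e2 : 1 • d + d = 2 • d := by rw [one_nsmul, two_nsmul]
        rw [e1, e2, ih 0 (by omega) (by omega), ih 1 (by omega) (by omega)] at h3
        simp only [Nat.zero_mod, Nat.one_mod] at h3
        simpa using h3
      | k + 3, ih, hkn =>
        have h3 := hrec ((k + 1) • d) (hk0 _ (by omega) (by omega))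
        have h4 := hrec ((k + 2) • d) (hk0 _ (by omega) (by omega))
        have e1 : (k + 1) • d - d = k • d := by rw [succ_nsmul]; abel
        have e2 : (k + 1) • d + d = (k + 2) • d := by rw [succ_nsmul _ (k + 1)]
        have e3 : (k + 2) • d - d = (k + 1) • d := by rw [succ_nsmul _ (k + 1)]; abel
        have e4 : (k + 2) • d + d = (k + 3) • d := by rw [succ_nsmul _ (k + 2)]
        rw [e1, e2] at h3
        rw [e3, e4] at h4
        have h5 := ih k (by omega) (by omega)
        have h6 : u ((k + 3) • d) = u (k • d) := by omega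
        rw [h6, h5]
        have : (k + 3) % 3 = k % 3 := by omega
        rw [this]
  -- differences of B
  have hB : (diffs B).card ≤ 2 * (B.card - 1) := by
    have hsub : diffs B ⊆ (Ico 1 B.card).image (fun j => (3 * j) • d) ∪
        (Ico 1 B.card).image (fun j => -((3 * j) • d)) := by
      intro g hg
      rw [mem_diffs] at hg
      obtain ⟨h0, x, hx, y, hy, he⟩ := hg
      obtain ⟨k, hk, hxk⟩ := exists_nsmul hgen (x + a0)
      obtain ⟨l, hl, hyl⟩ := exists_nsmul hgen (y + a0)
      have hk3 : k % 3 = 2 := by
        have h3 := hseq k hk.le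
        by_contra h
        rw [if_neg h, ← hxk, hu] at h3
        simp only [add_sub_cancel_right, ind, if_pos hx] at h3
        omega
      have hl3 : l % 3 = 2 := by
        have h3 := hseq l hl.le
        by_contra h
        rw [if_neg h, ← hyl, hu] at h3
        simp only [add_sub_cancel_right, ind, if_pos hy] at h3
        omega
      have hg : g = k • d - l • d := by rw [← he, ← hxk, ← hyl]; abel
      rw [mem_union, mem_image, mem_image]
      rcases lt_trichotomy k l with hkl | hkl | hkl
      · right
        refine ⟨(l - k) / 3, by rw [mem_Ico]; omega, ?_⟩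
        have e : 3 * ((l - k) / 3) = l - k := by omega
        rw [e, hg]
        have e2 : l = (l - k) + k := by omega
        nth_rw 2 [e2]
        rw [add_nsmul]; abel
      · exfalso; apply h0; rw [hg, hkl, sub_self]
      · left
        refine ⟨(k - l) / 3, by rw [mem_Ico]; omega, ?_⟩
        have e : 3 * ((k - l) / 3) = k - l := by omega
        rw [e, hg]
        have e2 : k = (k - l) + l := by omega
        nth_rw 2 [e2]
        rw [add_nsmul]; abel
    refine (card_le_card hsub).trans ((card_union_le _ _).trans ?_)
    have c1 : ((Ico 1 B.card).image (fun j => (3 * j) • d)).card ≤ B.card - 1 :=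
      card_image_le.trans (by rw [Nat.card_Ico])
    have c2 : ((Ico 1 B.card).image (fun j => -((3 * j) • d))).card ≤ B.card - 1 :=
      card_image_le.trans (by rw [Nat.card_Ico])
    omega
  have hAd : (diffs A).card ≤ 4 := by
    have hsub : diffs A ⊆ ({d, -d, d + d, -(d + d)} : Finset Γ) := by
      intro g hg
      rw [mem_diffs, hA] at hg
      obtain ⟨h0, x, hx, y, hy, he⟩ := hg
      simp only [mem_insert, mem_singleton] at hx hy ⊢
      rcases hx with rfl | rfl | rfl <;> rcases hy with rfl | rfl | rfl
      · exact absurd (by rw [← he]; abel) h0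
      · left; rw [← he]; abel
      · right; left; rw [← he]; abel
      · right; left; rw [← he]; abel
      · exact absurd (by rw [← he]; abel) h0
      · right; right; right; rw [← he]; abel
      · left; rw [← he]; abel
      · right; right; left; rw [← he]; abel
      · exact absurd (by rw [← he]; abel) h0
    refine (card_le_card hsub).trans ?_
    refine (card_insert_le _ _).trans ?_
    have := card_insert_le (-d) ({d + d, -(d + d)} : Finset Γ)
    have := card_insert_le (d + d) ({-(d + d)} : Finset Γ)
    simp only [card_singleton] at *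
    omega
  have := cover_card hcov
  omega

/-- three elements of which two differ from the centre by involutions -/
theorem three_invol {A B : Finset Γ} {a0 x y : Γ} (hA : A = {a0, x, y}) (hAc : A.card = 3)
    (hx : x + x = a0 + a0) (hy : y + y = a0 + a0) (H : NF A B 0) (hB : 2 ≤ B.card) : False := by
  have hcard := H.card
  rw [hAc] at hcard
  have hne : a0 ≠ x ∧ a0 ≠ y ∧ x ≠ y := by
    rw [hA] at hAc
    refine ⟨?_, ?_, ?_⟩
    · intro h
      rw [h] at hAc
      have := card_le_two (a := x) (b := y)
      simp only [insert_eq_of_mem, mem_insert_self, mem_singleton, true_or] at hAc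
      omega
    · intro h
      rw [h] at hAc
      have := card_le_two (a := x) (b := y)
      have e : ({y, x, y} : Finset Γ) = {x, y} := by ext; simp
      rw [e] at hAc
      omega
    · intro h
      rw [h] at hAc
      have := card_le_two (a := a0) (b := y)
      simp only [mem_singleton, insert_eq_of_mem] at hAc
      omega
  set d := x - a0 with hd
  set e := y - a0 with he
  have hdd : d + d = 0 := by
    have : d + d = (x + x) - (a0 + a0) := by rw [hd]; abel
    rw [this, hx, sub_self]
  have hee : e + e = 0 := by
    have : e + e = (y + y) - (a0 + a0) := by rw [he]; abel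
    rw [this, hy, sub_self]
  set u : Γ → ℕ := fun g => ind B (g - a0) with hu
  have hrec : ∀ g, g ≠ 0 → u g + u (g + d) + u (g + e) = 1 := by
    intro g hg
    have h1 := H g
    rw [if_neg hg, rep_eq_sum, hA, sum_insert (by simp only [mem_insert, mem_singleton, not_or]; exact ⟨hne.1, hne.2.1⟩),
      sum_pair hne.2.2] at h1
    rw [hu]
    simp only
    have e1 : g + d - a0 = g - x := by
      have : g + d - a0 = g - x + (d + d) := by rw [hd]; abel
      rw [this, hdd, add_zero]
    have e2 : g + e - a0 = g - y := by
      have : g + e - a0 = g - y + (e + e) := by rw [he]; abel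
      rw [this, hee, add_zero]
    rw [e1, e2, ← h1]; ring
  obtain ⟨w, hw⟩ : ∃ w : Γ, w ∉ ({0, d, e, d + e} : Finset Γ) := by
    by_contra hn
    push Not at hn
    have h1 : (univ : Finset Γ) ⊆ {0, d, e, d + e} := fun z _ => hn z
    have h2 := card_le_card h1
    rw [card_univ, hcard] at h2
    have h3 := card_insert_le (0 : Γ) ({d, e, d + e} : Finset Γ)
    have h4 := card_insert_le (d : Γ) ({e, d + e} : Finset Γ)
    have h5 := card_le_two (a := e) (b := d + e)
    omega
  simp only [mem_insert, mem_singleton, not_or] at hw
  obtain ⟨w0, w1, w2, w3⟩ := hw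
  have n1 : w + d ≠ 0 := by
    intro h; apply w1
    have : w = (w + d) - (d + d) + d := by abel
    rw [this, h, hdd]; abel
  have n2 : w + e ≠ 0 := by
    intro h; apply w2
    have : w = (w + e) - (e + e) + e := by abel
    rw [this, h, hee]; abel
  have n3 : w + d + e ≠ 0 := by
    intro h; apply w3
    have : w = (w + d + e) - (d + d) - (e + e) + (d + e) := by abel
    rw [this, h, hdd, hee]; abel
  have r0 := hrec w w0
  have r1 := hrec (w + d) n1
  have r2 := hrec (w + e) n2
  have r3 := hrec (w + d + e) n3
  have f1 : w + d + d = w := by rw [add_assoc, hdd, add_zero]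
  have f2 : w + e + e = w := by rw [add_assoc, hee, add_zero]
  have f3 : w + e + d = w + d + e := by abel
  have f4 : w + d + e + d = w + e := by
    have : w + d + e + d = w + e + (d + d) := by abel
    rw [this, hdd, add_zero]
  have f5 : w + d + e + e = w + d := by rw [add_assoc, hee, add_zero]
  rw [f1] at r1
  rw [f2, f3] at r2
  rw [f4, f5] at r3
  omega

theorem three_small {A B : Finset Γ} (hA : A.card = 3) (hB : 2 ≤ B.card) (H : NF A B 0)
    (hcov : ∀ x, x ≠ 0 → x ∈ diffs A ∨ x ∈ diffs B) : B.card ≤ 2 := by
  obtain ⟨c, hc⟩ := H.symm_left (card_pos.mp (by omega))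
  obtain ⟨a0, ha0, hac⟩ := center_of_odd hc (by rw [hA]; decide)
  have h2 : (A.erase a0).card = 2 := by rw [card_erase_of_mem ha0, hA]
  obtain ⟨x, y, hxy, hE⟩ := card_eq_two.mp h2
  have hAeq : A = {a0, x, y} := by rw [← insert_erase ha0, hE]
  have hxA : x ∈ A := by rw [hAeq]; simp
  have hyA : y ∈ A := by rw [hAeq]; simp
  have hx0 : x ≠ a0 := by
    have : x ∈ A.erase a0 := by rw [hE]; simp
    exact (mem_erase.mp this).1
  have hy0 : y ≠ a0 := by
    have : y ∈ A.erase a0 := by rw [hE]; simp
    exact (mem_erase.mp this).1
  have hcx : c - x = x ∨ c - x = y := by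
    have h3 : c - x ∈ A.erase a0 := by
      rw [mem_erase]
      refine ⟨?_, (hc x).mp hxA⟩
      intro h
      apply hx0
      have : x = c - (c - x) := by abel
      rw [this, h, ← hac]; abel
    rw [hE] at h3
    simpa using h3
  have hcy : c - y = x ∨ c - y = y := by
    have h3 : c - y ∈ A.erase a0 := by
      rw [mem_erase]
      refine ⟨?_, (hc y).mp hyA⟩
      intro h
      apply hy0
      have : y = c - (c - y) := by abel
      rw [this, h, ← hac]; abel
    rw [hE] at h3
    simpa using h3
  rcases hcx with h | h
  · exfalso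
    have hcy' : c - y = y := by
      rcases hcy with h' | h'
      · exfalso
        apply hxy
        have : y = c - (c - y) := by abel
        rw [this, h', h]
      · exact h'
    refine three_invol hAeq hA ?_ ?_ H hB
    · rw [hac]
      nth_rw 1 [← h]; abel
    · rw [hac]
      nth_rw 1 [← hcy']; abel
  · have hx' : x = a0 - (y - a0) := by
      have : x = c - (c - x) := by abel
      rw [this, h, ← hac]; abel
    have hy' : y = a0 + (y - a0) := by abel
    refine three_main (a0 := a0) (d := y - a0) ?_ (sub_ne_zero.mpr hy0) ?_ H hcov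
    · rw [← hx', ← hy']; exact hxy
    · rw [← hx', ← hy']; exact hAeq

end Pool.Agent.H51.PG
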