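import Pool.Agent.H51.PG.Graph

/-! Factors with two or three elements. -/

namespace Pool.Agent.H51.PG

open Finset

variable {Γ : Type*} [AddCommGroup Γ] [Fintype Γ] [DecidableEq Γ]

theorem rep_eq (A B : Finset Γ) (g : Γ) : rep A B g = (A.filter (fun a => g - a ∈ B)).card := by
  unfold rep
  refine card_bij (fun z _ => z.1) ?_ ?_ ?_
  · rintro ⟨a, b⟩ h
    simp only [mem_filter, mem_product] at h ⊢
    refine ⟨h.1.1, ?_⟩
    have : g - a = b := by rw [← h.2]; abel
    rw [this]; exact h.1.2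
  · rintro ⟨a, b⟩ h ⟨c, d⟩ h' hac
    simp only [mem_filter, mem_product] at h h' hac ⊢
    subst hac
    rw [add_left_cancel (h.2.trans h'.2.symm)]
  · intro a ha
    simp only [mem_filter] at ha
    refine ⟨(a, g - a), ?_, rfl⟩
    simp only [mem_filter, mem_product]
    exact ⟨⟨ha.1, ha.2⟩, by abel⟩

/-- indicator of a set with values in `ℕ` -/
def ind (B : Finset Γ) (g : Γ) : ℕ := if g ∈ B then 1 else 0

theorem ind_le (B : Finset Γ) (g : Γ) : ind B g ≤ 1 := by unfold ind; split_ifs <;> omega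

theorem rep_eq_sum (A B : Finset Γ) (g : Γ) : rep A B g = ∑ a ∈ A, ind B (g - a) := by
  rw [rep_eq, card_filter]; rfl

theorem cover_card {P Q : Finset Γ} (h : ∀ x, x ≠ 0 → x ∈ P ∨ x ∈ Q) :
    Fintype.card Γ ≤ P.card + Q.card + 1 := by
  have h1 : (univ : Finset Γ) ⊆ insert 0 (P ∪ Q) := by
    intro x _
    rw [mem_insert, mem_union]
    by_cases hx : x = 0
    · left; exact hx
    · right; exact h x hx
  have h2 := card_le_card h1
  rw [card_univ] at h2
  have h3 := card_insert_le (0 : Γ) (P ∪ Q)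
  have h4 := card_union_le P Q
  omega

/-- a generator gives an isomorphism with `ZMod n` -/
theorem gen_equiv {d : Γ} (hd : ∀ z, z ∈ AddSubgroup.zmultiples d) :
    ∃ φ : ZMod (Fintype.card Γ) ≃+ Γ, φ 1 = d := by
  haveI : NeZero (Fintype.card Γ) := ⟨Fintype.card_ne_zero⟩
  have hz : (zmultiplesHom Γ d) (Fintype.card Γ : ℤ) = 0 := by
    rw [zmultiplesHom_apply, natCast_zsmul, card_nsmul_eq_zero]
  set f : ZMod (Fintype.card Γ) →+ Γ := ZMod.lift (Fintype.card Γ) ⟨zmultiplesHom Γ d, hz⟩ with hf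
  have hf1 : ∀ k : ℤ, f (k : ZMod (Fintype.card Γ)) = k • d := by
    intro k
    rw [hf, ZMod.lift_coe]
    rfl
  have hsurj : Function.Surjective f := by
    intro z
    obtain ⟨k, hk⟩ := AddSubgroup.mem_zmultiples_iff.mp (hd z)
    exact ⟨(k : ZMod (Fintype.card Γ)), by rw [hf1, hk]⟩
  have hbij : Function.Bijective f := by
    rw [Fintype.bijective_iff_surjective_and_card]
    exact ⟨hsurj, ZMod.card _⟩
  refine ⟨AddEquiv.ofBijective f hbij, ?_⟩
  have := hf1 1
  rw [one_zsmul] at this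
  rw [AddEquiv.ofBijective_apply, ← this]
  simp

theorem gen_equiv' {d : Γ} (hd : ∀ z, z ∈ AddSubgroup.zmultiples d) {n : ℕ}
    (hn : Fintype.card Γ = n) : ∃ φ : ZMod n ≃+ Γ, φ 1 = d := by
  subst hn
  exact gen_equiv hd

theorem zsmul_eq_iff {d : Γ} (hd : ∀ z, z ∈ AddSubgroup.zmultiples d) (i j : ℕ)
    (hi : i < Fintype.card Γ) (hj : j < Fintype.card Γ) (h : i • d = j • d) : i = j := by
  obtain ⟨φ, hφ⟩ := gen_equiv hd
  haveI : NeZero (Fintype.card Γ) := ⟨Fintype.card_ne_zero⟩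
  have h1 : ∀ k : ℕ, φ (k : ZMod (Fintype.card Γ)) = k • d := by
    intro k
    have : ((k : ℕ) : ZMod (Fintype.card Γ)) = k • (1 : ZMod (Fintype.card Γ)) := by simp
    rw [this, map_nsmul, hφ]
  rw [← h1, ← h1] at h
  have h2 := φ.injective h
  rw [ZMod.natCast_eq_natCast_iff] at h2
  have h3 : i % Fintype.card Γ = j % Fintype.card Γ := h2
  rwa [Nat.mod_eq_of_lt hi, Nat.mod_eq_of_lt hj] at h3

theorem exists_nsmul {d : Γ} (hd : ∀ z, z ∈ AddSubgroup.zmultiples d) (z : Γ) :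
    ∃ k : ℕ, k < Fintype.card Γ ∧ z = k • d := by
  obtain ⟨φ, hφ⟩ := gen_equiv hd
  haveI : NeZero (Fintype.card Γ) := ⟨Fintype.card_ne_zero⟩
  refine ⟨(φ.symm z).val, ZMod.val_lt _, ?_⟩
  rw [← hφ, ← map_nsmul]
  have : (φ.symm z).val • (1 : ZMod (Fintype.card Γ)) = φ.symm z := by
    rw [nsmul_eq_mul, mul_one, ZMod.natCast_zmod_val]
  rw [this, AddEquiv.apply_symm_apply]

theorem two_gen {t : Γ → ℕ} {d α : Γ} (hα : α ∈ AddSubgroup.zmultiples d)
    (ht : ∀ g, g ≠ 0 → t (g - α) + t (g - α + d) = 1) (hodd : Odd (Fintype.card Γ)) :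
    ∀ z, z ∈ AddSubgroup.zmultiples d := by
  intro z
  by_contra hz
  have h1 : ∀ k : ℕ, z + k • d + α ≠ 0 := by
    intro k h
    apply hz
    have : z = -(k • d) - α := by
      rw [eq_sub_iff_add_eq, eq_neg_iff_add_eq_zero, ← h]; abel
    rw [this]
    exact AddSubgroup.sub_mem _ (AddSubgroup.neg_mem _ (AddSubgroup.nsmul_mem_zmultiples d k)) hα
  have h2 : ∀ k : ℕ, t (z + k • d) + t (z + (k + 1) • d) = 1 := by
    intro k
    have := ht _ (h1 k)
    rw [add_sub_cancel_right] at this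
    rw [succ_nsmul, ← add_assoc]
    exact this
  have h3 : ∀ k : ℕ, t (z + (2 * k) • d) = t (z + 0 • d) := by
    intro k
    induction k with
    | zero => rfl
    | succ k ih =>
      have e1 := h2 (2 * k)
      have e2 := h2 (2 * k + 1)
      have e3 : 2 * (k + 1) = 2 * k + 1 + 1 := by ring
      rw [e3]
      omega
  obtain ⟨m, hm⟩ := hodd
  have h4 := h2 (2 * m)
  have h5 := h3 m
  have h6 : z + (2 * m + 1) • d = z + 0 • d := by
    rw [← hm, card_nsmul_eq_zero, zero_nsmul]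
  rw [h6] at h4
  omega

/-- a factor with two elements: the graph is an odd hole -/
theorem hole_of_two {G : SimpleGraph Γ} {A B : Finset Γ} (hA : A.card = 2) (hB : 2 ≤ B.card)
    (H : NF A B 0) (hadj : ∀ u v, G.Adj u v ↔ u - v ∈ diffs A) :
    ∃ k, 2 ≤ k ∧ Nonempty (G ≃g SimpleGraph.cycleGraph (2 * k + 1)) := by
  obtain ⟨x, y, hxy, rfl⟩ := card_eq_two.mp hA
  set d := y - x with hd
  have hd0 : d ≠ 0 := sub_ne_zero.mpr hxy.symm
  have hcard := H.card
  rw [hA] at hcard
  have hgen : ∀ z, z ∈ AddSubgroup.zmultiples d := by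
    refine two_gen (t := fun g => ind B (g - y)) (d := d) (α := 0) (AddSubgroup.zero_mem _) ?_
      ⟨B.card, hcard⟩
    intro g hg
    have h1 := H g
    rw [if_neg hg, rep_eq_sum, sum_pair hxy] at h1
    have h2 : g - 0 + d - y = g - x := by rw [hd]; abel
    rw [h2, sub_zero, add_comm]
    exact h1
  obtain ⟨φ, hφ⟩ := gen_equiv' hgen hcard
  refine ⟨B.card, hB, ?_⟩
  have hdi : ∀ g, g ∈ diffs ({x, y} : Finset Γ) ↔ g = d ∨ g = -d := by
    intro g
    rw [mem_diffs]
    constructor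
    · rintro ⟨h0, a, ha, b, hb, he⟩
      rw [mem_insert, mem_singleton] at ha hb
      rcases ha with rfl | rfl <;> rcases hb with rfl | rfl
      · rw [sub_self] at he; exact absurd he.symm h0
      · right; rw [← he, hd]; abel
      · left; rw [← he]
      · rw [sub_self] at he; exact absurd he.symm h0
    · rintro (h | h)
      · exact ⟨by rw [h]; exact hd0, y, by simp, x, by simp, h.symm⟩
      · exact ⟨by rw [h]; exact neg_ne_zero.mpr hd0, x, by simp, y, by simp, by rw [h, hd]; abel⟩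
  refine ⟨⟨φ.symm.toEquiv, ?_⟩⟩
  intro u v
  rw [SimpleGraph.cycleGraph_eq_circulantGraph, SimpleGraph.circulantGraph, SimpleGraph.fromRel_adj,
    hadj, hdi]
  have e1 : (φ.symm u - φ.symm v = 1) ↔ u - v = d := by
    rw [← map_sub, ← hφ, AddEquiv.symm_apply_eq]
  have e2 : (φ.symm v - φ.symm u = 1) ↔ u - v = -d := by
    rw [← map_sub, ← hφ, AddEquiv.symm_apply_eq, ← neg_sub u v, neg_eq_iff_eq_neg]
  change (φ.symm u ≠ φ.symm v ∧ (φ.symm u - φ.symm v = 1 ∨ φ.symm v - φ.symm u = 1)) ↔ _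
  rw [e1, e2]
  constructor
  · exact fun h => h.2
  · intro h
    refine ⟨?_, h⟩
    intro he
    have huv : u = v := φ.symm.injective he
    rw [huv, sub_self] at h
    rcases h with h | h
    · exact hd0 h.symm
    · exact hd0 (neg_eq_zero.mp h.symm)

end Pool.Agent.H51.PG
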